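import Pool.Agent.FJJ.Step

/-!
# The parts of the source in degree one are independent, modulo torsion
-/

set_option autoImplicit false

open Matrix Pool.Agent.WhK Pool.Agent.Lib25 Pool.Agent.Lib25.H2

namespace Pool.Agent.FJJ

universe u v

variable {G : Type u} [Group G]

theorem gUnit_mul (g h : G) : gUnit (g * h) = gUnit g * gUnit h := by
  unfold gUnit
  rw [map_mul, map_mul]

/-- the class of the unit given by an element of the group -/
noncomputable def eltHom (G : Type u) [Group G] : G →* Multiplicative (K1Z G) :=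
  MonoidHom.mk' (fun g => Multiplicative.ofAdd (unitCls g)) fun g h => by
    unfold unitCls
    rw [gUnit_mul, K1.ofUnit_mul]
    rfl

/-- the homomorphism from the abelianisation of `G` -/
noncomputable def abHom (G : Type u) [Group G] : Additive (Abelianization G) →+ K1Z G :=
  (Abelianization.lift (eltHom G)).toAdditiveLeft

theorem abHom_of (g : G) : abHom G (Additive.ofMul (Abelianization.of g)) = unitCls g := by
  change (Abelianization.lift (eltHom G) (Abelianization.of g)).toAdd = _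
  rw [Abelianization.lift_apply_of]
  rfl

theorem ofUnit_pow {R : Type u} [Ring R] (u : Rˣ) (n : ℕ) : K1.ofUnit (u ^ n) = n • K1.ofUnit u := by
  have h := map_pow (K1.unitHom R) u n
  exact congrArg Multiplicative.toAdd h

theorem k1m_ofUnit {R : Type u} {S : Type v} [Ring R] [Ring S] (f : R →+* S) (u : Rˣ) :
    k1m f (K1.ofUnit u) = K1.ofUnit (Units.map f.toMonoidHom u) := by
  unfold K1.ofUnit
  rw [k1m_mk]
  congr 1
  refine Units.ext (Matrix.ext fun i j => ?_)
  change f (Matrix.scalar (Fin 1) (u : R) i j) = Matrix.scalar (Fin 1) (f (u : R)) i j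
  rw [Matrix.scalar_apply, Matrix.scalar_apply, Matrix.diagonal_apply, Matrix.diagonal_apply]
  split_ifs
  · rfl
  · exact map_zero _

/-- the homomorphism `ℤ[G] → ℚ[G^ab]` -/
noncomputable def toAbQ (G : Type u) [Group G] :
    MonoidAlgebra ℤ G →+* MonoidAlgebra ℚ (Abelianization G) :=
  (rm ℚ (Abelianization.of (G := G))).comp (cg ℚ G)

theorem toAbQ_of (g : G) : toAbQ G (MonoidAlgebra.single g 1) =
    MonoidAlgebra.single (Abelianization.of g) 1 := by
  unfold toAbQ
  rw [RingHom.comp_apply]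
  change rm ℚ _ (MonoidAlgebra.mapRingHom G (Int.castRingHom ℚ) _) = _
  rw [MonoidAlgebra.mapRingHom_single, rm_single, map_one]

theorem ab_torsion (g : G) (h : K1.ofUnit (gUnit g) ∈ LocT G) :
    Abelianization.of g = 1 := by
  have h1 : k1m (toAbQ G) (K1.ofUnit (gUnit g)) = 0 := by
    unfold toAbQ
    rw [← k1m_comp, (mem_LocT.1 h).1, map_zero]
  rw [k1m_ofUnit] at h1
  have h2 := unit_eq_one (S := MonoidAlgebra ℚ (Abelianization G)) _ h1
  have h3 := congrArg Units.val h2
  change toAbQ G (MonoidAlgebra.single g 1) = 1 at h3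
  rw [toAbQ_of] at h3
  exact MonoidAlgebra.of_injective (R := ℚ) h3

/-- the integral form of the independence -/
theorem core (g : G) (d : ColimK1 G) (x : K1 (MonoidAlgebra ℤ G)) (hx : x ∈ LocT G)
    (h : K1.ofUnit (gUnit g) + liftColim (K1.unitHom (MonoidAlgebra ℤ G)) d + x = 0) :
    ∃ n : ℕ, 0 < n ∧ n • d = 0 ∧ Abelianization.of (g ^ n) = 1 := by
  obtain ⟨v, hv⟩ := exists_total d
  have e1 : liftColim (K1.unitHom (MonoidAlgebra ℤ G)) d = K1.ofUnit v :=
    hv _ (K1.unitHom (MonoidAlgebra ℤ G))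
  have e3 : K1.ofUnit (gUnit g * v) ∈ LocT G := by
    rw [K1.ofUnit_mul, ← e1, eq_neg_of_add_eq_zero_left h]
    exact AddSubgroup.neg_mem _ hx
  obtain ⟨N, hN, hmem⟩ := exists_mem_Alow d
  obtain ⟨p, hp, hp2, hmod⟩ := Nat.exists_prime_gt_modEq_one (k := N) 2 hN.ne'
  have : Fact p.Prime := ⟨hp⟩
  have hp2' : p ≠ 2 := hp2.ne'
  have hdvd : N ∣ p - 1 := (Nat.modEq_iff_dvd' hp.one_lt.le).1 hmod.symm
  obtain ⟨k, hk⟩ := GamGL_of_locT _ e3 p hp2'
  obtain ⟨n, hn, hnd⟩ := torsion_of_Lmap hp2' k (N + 1) d (hmem p hdvd) (fun m κ => by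
    show liftColim ((GamGL G (k + 1) p m hp2').comp (Units.map (Pool.Agent.WhK.dg 0))) d
      (some κ) = 0
    rw [hv]
    show (GamGL G (k + 1) p m hp2' (Units.map (Pool.Agent.WhK.dg 0) v)).toAdd (some κ) = 0
    have h5 := hk m
    rw [map_mul, map_mul] at h5
    have h6 := eq_inv_of_mul_eq_one_right h5
    rw [h6, toAdd_inv, Finsupp.neg_apply, gUnit_log, neg_zero])
  refine ⟨n, hn, hnd, ?_⟩
  apply ab_torsion
  have h7 := congrArg (fun y => n • y) h
  simp only [smul_add, smul_zero] at h7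
  rw [← map_nsmul, hnd, map_zero, add_zero, ← ofUnit_pow] at h7
  have h8 : gUnit (g ^ n) = gUnit g ^ n := by
    unfold gUnit
    rw [map_pow, map_pow]
  rw [h8, eq_neg_of_add_eq_zero_left h7]
  exact AddSubgroup.neg_mem _ (AddSubgroup.nsmul_mem _ hx n)

end Pool.Agent.FJJ
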