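import Pool.Agent.Lib_helper25.H2.Base
import Pool.Agent.Lib_helper44.Wh.WhDefs

/-!
# The complete source of the rationalised assembly map in degree one

* `ColimF G`: the colimit of the groups `K₁(ℤ[H])` over the finite subgroups `H` of `G`, the maps
  being induced by the homomorphisms `H → K`, `h ↦ g h g⁻¹`, for `g ∈ G` with `g H g⁻¹ ⊆ K`.
* `SrcOne G = (ℚ ⊗ G^ab) × (ℚ ⊗ ColimF G) × Src2 G`: the complete source.
* `IsAssemblyOne κ A`: the linear map `A : SrcOne G → ℚ ⊗ K₁(ℤ[G])` sends the class of an element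
  `g` of `G` to the class of the unit `g`, the class of `x` in `K₁(ℤ[H])` to its image, and the
  symbol given by a homomorphism `φ : C_n × SG g → G` to the image of `κ n p g` under `φ`.
-/

set_option autoImplicit false

universe u

open TensorProduct Pool.Agent.WhK Pool.Agent.Lib25.H2

namespace Pool.Agent.FJJ

section Colim

variable (G : Type u) [Group G]

/-- Pairs of a finite subgroup `H` of `G` and an element of `K₁(ℤ[H])`. -/
structure KPair : Type u where
  H : FinSub G
  x : K1Z H.sub

variable {G}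

/-- The generator `[H, x]` of the free abelian group on the pairs. -/
def ColimF.gen (H : FinSub G) (x : K1Z H.sub) : FreeAbelianGroup (KPair G) :=
  FreeAbelianGroup.of ⟨H, x⟩

/-- The element `[H, x + y] - [H, x] - [H, y]`. -/
noncomputable def ColimF.relAddElt (H : FinSub G) (x y : K1Z H.sub) :
    FreeAbelianGroup (KPair G) :=
  ColimF.gen H (x + y) - ColimF.gen H x - ColimF.gen H y

/-- The element `[H, x] - [K, y]`, where `g H g⁻¹ ⊆ K` and `y` is the image of `x` under the map
`K₁(ℤ[H]) → K₁(ℤ[K])` induced by `h ↦ g h g⁻¹`. -/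
noncomputable def ColimF.relConjElt (H K : FinSub G) (g : G)
    (h : ∀ c ∈ H.sub, g * c * g⁻¹ ∈ K.sub) (x : K1Z H.sub) : FreeAbelianGroup (KPair G) :=
  ColimF.gen H x - ColimF.gen K (K1Z.map (conjHom H.sub K.sub g h) x)

variable (G)

/-- The relations `[H, x + y] = [H, x] + [H, y]`. -/
def ColimF.relAdd : Set (FreeAbelianGroup (KPair G)) :=
  {z | ∃ (H : FinSub G) (x y : K1Z H.sub), z = ColimF.relAddElt H x y}

/-- The relations `[H, x] = [K, y]` when `g H g⁻¹ ⊆ K` and `y` is the image of `x` under the map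
`K₁(ℤ[H]) → K₁(ℤ[K])` induced by `h ↦ g h g⁻¹`. -/
def ColimF.relConj : Set (FreeAbelianGroup (KPair G)) :=
  {z | ∃ (H K : FinSub G) (g : G) (h : ∀ c ∈ H.sub, g * c * g⁻¹ ∈ K.sub) (x : K1Z H.sub),
    z = ColimF.relConjElt H K g h x}

/-- The colimit of the abelian groups `K₁(ℤ[H])` over the finite subgroups `H` of `G`, with respect
to the maps induced by inclusion and by conjugation in `G`. -/
def ColimF : Type u :=
  FreeAbelianGroup (KPair G) ⧸ AddSubgroup.closure (ColimF.relAdd G ∪ ColimF.relConj G)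

noncomputable instance ColimF.instAddCommGroup : AddCommGroup (ColimF G) :=
  (inferInstance : AddCommGroup
    (FreeAbelianGroup (KPair G) ⧸ AddSubgroup.closure (ColimF.relAdd G ∪ ColimF.relConj G)))

variable {G}

/-- The class in the colimit of an element of `K₁(ℤ[H])`. -/
def ColimF.mk (H : FinSub G) (x : K1Z H.sub) : ColimF G := QuotientAddGroup.mk (ColimF.gen H x)

end Colim

section Source

/-- The complete source of the rationalised assembly map in degree one. -/
def SrcOne (G : Type u) [Group G] : Type u :=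
  (ℚ ⊗[ℤ] Additive (Abelianization G)) × (ℚ ⊗[ℤ] ColimF G) × Src2 G

noncomputable instance SrcOne.instAddCommGroup (G : Type u) [Group G] :
    AddCommGroup (SrcOne G) :=
  (inferInstance : AddCommGroup
    ((ℚ ⊗[ℤ] Additive (Abelianization G)) × (ℚ ⊗[ℤ] ColimF G) × Src2 G))

noncomputable instance SrcOne.instModule (G : Type u) [Group G] : Module ℚ (SrcOne G) :=
  (inferInstance : Module ℚ
    ((ℚ ⊗[ℤ] Additive (Abelianization G)) × (ℚ ⊗[ℤ] ColimF G) × Src2 G))

variable {G : Type u} [Group G]

/-- The class of an element of the group. -/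
noncomputable def SrcOne.elt (g : G) : SrcOne G :=
  ((1 : ℚ) ⊗ₜ[ℤ] Additive.ofMul (Abelianization.of g), 0, 0)

/-- The class of an element of `K₁(ℤ[H])`, for a finite subgroup `H`. -/
noncomputable def SrcOne.fin (H : FinSub G) (x : K1Z H.sub) : SrcOne G :=
  (0, (1 : ℚ) ⊗ₜ[ℤ] ColimF.mk H x, 0)

/-- The class of a symbol. -/
noncomputable def SrcOne.sym (p : ℕ) (h : G) (w : List (G × G)) : SrcOne G := (0, 0, sym2 p h w)

/-- The class in `K₁(ℤ[G])` of the unit `g`. -/
noncomputable def unitCls (g : G) : K1Z G := K1.ofUnit (gUnit g)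

end Source

/-- The linear map `A : SrcOne G → ℚ ⊗ K₁(ℤ[G])` sends the class of an element `g` of `G` to the
class of the unit `g`, the class of an element `x` of `K₁(ℤ[H])`, for a finite subgroup `H`, to the
image of `x` under the inclusion of `H`, and the symbol `(p, h, w)`, where `h` and the letters of
`w` are the images of the generators of `C_n × Σ_g` under a homomorphism `φ : C_n × Σ_g → G`
injective on `C_n`, to the image of `κ n p g` under `φ`. -/
structure IsAssemblyOne (κ : ∀ n : ℕ, ℕ → ∀ g : ℕ, K1Z (CS n g)) {G : Type u} [Group G]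
    (A : SrcOne G →ₗ[ℚ] QK1Z G) : Prop where
  elt : ∀ g : G, A (SrcOne.elt g) = QK1Z.mk (unitCls g)
  fin : ∀ (H : FinSub G) (x : K1Z H.sub),
    A (SrcOne.fin H x) = QK1Z.mk (K1Z.map H.sub.subtype x)
  sym : ∀ (n p g : ℕ) (φ : CS n g →* G), 0 < n → p.Prime → p ∣ n →
    Function.Injective (fun c => φ (c, 1)) →
    A (SrcOne.sym p (φ (gH n g)) (mapW φ (gW n g))) = QK1Z.mk (K1Z.map φ (κ n p g))

end Pool.Agent.FJJ
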