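import Mathlib
import Pool.Agent.Lib_helper44.Wh.Norm

/-!
# External powers and cyclic shifts in monoid rings over a commutative ring

The file repeats, for an arbitrary commutative ring `k` of coefficients, the constructions of
`Pool.Agent.Lib_helper44.Wh.ExtPow`, `Shift` for the ring of integers.
-/

set_option autoImplicit false

namespace Pool.Agent.FJJ

open Finset Pool.Agent.WhK

section Ext

variable {k : Type*} [CommRing k] {𝔐 𝔐' : Type*}

open Classical in
theorem extK_mem (I : Type*) [Fintype I] (u : MonoidAlgebra k 𝔐) (g : I → 𝔐)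
    (hg : ∏ i, u.coeff (g i) ≠ 0) : g ∈ Fintype.piFinset fun _ => u.coeff.support := by
  rw [Fintype.mem_piFinset]
  intro i
  rw [Finsupp.mem_support_iff]
  intro h0
  exact hg (Finset.prod_eq_zero (Finset.mem_univ i) h0)

open Classical in
/-- external power of an element of a monoid ring -/
noncomputable def extK (I : Type*) [Fintype I] (u : MonoidAlgebra k 𝔐) :
    MonoidAlgebra k (I → 𝔐) :=
  .ofCoeff (Finsupp.onFinset (Fintype.piFinset fun _ => u.coeff.support)
      (fun g => ∏ i, u.coeff (g i)) (extK_mem I u))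

theorem coeff_extK (I : Type*) [Fintype I] (u : MonoidAlgebra k 𝔐) (g : I → 𝔐) :
    (extK I u).coeff g = ∏ i, u.coeff (g i) := rfl

theorem extK_one (I : Type*) [Fintype I] [Monoid 𝔐] : extK I (1 : MonoidAlgebra k 𝔐) = 1 := by
  classical
  ext g
  rw [coeff_extK]
  simp only [MonoidAlgebra.one_def, MonoidAlgebra.coeff_single, Finsupp.single_apply]
  rw [Finset.prod_ite_zero]
  simp only [Finset.prod_const_one, Finset.mem_univ, forall_const]
  congr 1
  rw [eq_iff_iff, funext_iff]
  rfl

theorem extK_mul (I : Type*) [Fintype I] [Monoid 𝔐] (u v : MonoidAlgebra k 𝔐) :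
    extK I (u * v) = extK I u * extK I v := by
  classical
  ext g
  have hs : ∀ (x : MonoidAlgebra k 𝔐) (F : (I → 𝔐) → k → k), (∀ a, F a 0 = 0) →
      (extK I x).coeff.sum F =
        ∑ a ∈ Fintype.piFinset fun _ : I => x.coeff.support, F a (∏ i, x.coeff (a i)) := by
    intro x F hF
    exact Finsupp.onFinset_sum (extK_mem I x) hF
  rw [MonoidAlgebra.coeff_mul, coeff_extK, hs u _ (fun a => by
    simp only [zero_mul, ite_self]
    exact Finset.sum_const_zero)]
  have h1 : ∀ i, (u * v).coeff (g i) = ∑ a ∈ u.coeff.support, ∑ b ∈ v.coeff.support,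
      if a * b = g i then u.coeff a * v.coeff b else 0 := fun i => by
    rw [MonoidAlgebra.coeff_mul]; rfl
  rw [Finset.prod_congr rfl fun i _ => h1 i, Finset.prod_univ_sum]
  refine Finset.sum_congr rfl fun a _ => ?_
  rw [hs v _ (fun b => by simp), Finset.prod_univ_sum]
  refine Finset.sum_congr rfl fun b _ => ?_
  rw [Finset.prod_ite_zero, ← Finset.prod_mul_distrib]
  congr 1
  rw [eq_iff_iff, funext_iff]
  simp

/-- external power as a monoid homomorphism -/
noncomputable def extKHom (k : Type*) [CommRing k] (I : Type*) [Fintype I] (𝔐 : Type*) [Monoid 𝔐] :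
    MonoidAlgebra k 𝔐 →* MonoidAlgebra k (I → 𝔐) where
  toFun := extK I
  map_one' := extK_one I
  map_mul' := extK_mul I

theorem coeffK_inj {X Y : Type*} {f : X → Y} (hf : Function.Injective f)
    (x : MonoidAlgebra k X) (a : X) :
    (MonoidAlgebra.mapDomain f x).coeff (f a) = x.coeff a :=
  Finsupp.mapDomain_apply hf x.coeff a

theorem mdK_comp {X Y Z : Type*} (f : X → Y) (g : Y → Z) (x : MonoidAlgebra k X) :
    MonoidAlgebra.mapDomain g (MonoidAlgebra.mapDomain f x) =
      MonoidAlgebra.mapDomain (fun a => g (f a)) x := by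
  rw [← MonoidAlgebra.coeff_inj]
  exact Finsupp.mapDomain_comp.symm

/-- external powers and change of coefficients -/
theorem extK_map {k' : Type*} [CommRing k'] (f : k →+* k') (I : Type*) [Fintype I] [Monoid 𝔐]
    (u : MonoidAlgebra k 𝔐) :
    extK I (MonoidAlgebra.mapRingHom 𝔐 f u) = MonoidAlgebra.mapRingHom (I → 𝔐) f (extK I u) := by
  ext g
  rw [coeff_extK, MonoidAlgebra.coeff_mapRingHom, coeff_extK, map_prod]
  exact Finset.prod_congr rfl fun i _ => MonoidAlgebra.coeff_mapRingHom f u (g i)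

theorem extK_int (I : Type*) [Fintype I] (u : MonoidAlgebra ℤ 𝔐) : extK I u = extPow I u := rfl

/-- additive version of `mapDomain` -/
noncomputable def mdK {X Y : Type*} (f : X → Y) : MonoidAlgebra k X →+ MonoidAlgebra k Y where
  toFun := MonoidAlgebra.mapDomain f
  map_zero' := MonoidAlgebra.mapDomain_zero f
  map_add' := MonoidAlgebra.mapDomain_add f

theorem mdK_apply {X Y : Type*} (f : X → Y) (x : MonoidAlgebra k X) :
    mdK f x = MonoidAlgebra.mapDomain f x := rfl

theorem md_map {k' : Type*} [CommRing k'] (f : k →+* k') {X Y : Type*} [Monoid X] [Monoid Y]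
    (h : X → Y) (x : MonoidAlgebra k X) :
    MonoidAlgebra.mapDomain h (MonoidAlgebra.mapRingHom X f x) =
      MonoidAlgebra.mapRingHom Y f (MonoidAlgebra.mapDomain h x) := by
  rw [← mdK_apply, ← mdK_apply]
  induction x using MonoidAlgebra.induction_linear with
  | zero => simp
  | add x y hx hy => rw [map_add, map_add, hx, hy, map_add, map_add]
  | single g r =>
    rw [MonoidAlgebra.mapRingHom_single, mdK_apply, mdK_apply, MonoidAlgebra.mapDomain_single,
      MonoidAlgebra.mapDomain_single, MonoidAlgebra.mapRingHom_single]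

end Ext

section Shift

variable {k : Type*} [CommRing k] {𝔐 : Type*} [Monoid 𝔐] {N : ℕ}

/-- the action on the monoid ring -/
noncomputable def rhoK (k : Type*) [CommRing k] {𝔐 : Type*} [Monoid 𝔐] {N : ℕ} (i : ZMod N) :
    MonoidAlgebra k (ZMod N → 𝔐) →+* MonoidAlgebra k (ZMod N → 𝔐) :=
  MonoidAlgebra.mapDomainRingHom k (shiftHom i)

theorem rhoK_eq (i : ZMod N) (x : MonoidAlgebra k (ZMod N → 𝔐)) :
    rhoK k i x = MonoidAlgebra.mapDomain (shiftHom i) x := rfl

theorem coeff_rhoK (i : ZMod N) (x : MonoidAlgebra k (ZMod N → 𝔐)) (g : ZMod N → 𝔐) :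
    (rhoK k i x).coeff g = x.coeff (shiftHom (-i) g) := by
  rw [rhoK_eq]
  conv_lhs => rw [← shiftHom_neg_cancel i g]
  exact coeffK_inj (shiftHom_injective i) x _

theorem rhoK_zero (x : MonoidAlgebra k (ZMod N → 𝔐)) : rhoK k 0 x = x := by
  ext g
  rw [coeff_rhoK, neg_zero, shiftHom_zero]

theorem rhoK_add (i j : ZMod N) (x : MonoidAlgebra k (ZMod N → 𝔐)) :
    rhoK k (i + j) x = rhoK k i (rhoK k j x) := by
  ext g
  have e : -(i + j) = -j + -i := by ring
  rw [coeff_rhoK, coeff_rhoK, coeff_rhoK, ← shiftHom_add, e]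

theorem rhoK_extK [NeZero N] (i : ZMod N) (u : MonoidAlgebra k 𝔐) :
    rhoK k i (extK (ZMod N) u) = extK (ZMod N) u := by
  ext g
  rw [coeff_rhoK, coeff_extK, coeff_extK]
  exact Fintype.prod_equiv (Equiv.addRight (-i)) _ _ fun j => rfl

theorem rhoK_map {k' : Type*} [CommRing k'] (f : k →+* k') (i : ZMod N)
    (x : MonoidAlgebra k (ZMod N → 𝔐)) :
    rhoK k' i (MonoidAlgebra.mapRingHom (ZMod N → 𝔐) f x) =
      MonoidAlgebra.mapRingHom (ZMod N → 𝔐) f (rhoK k i x) := by
  rw [rhoK_eq, rhoK_eq, md_map]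

variable {K : Type*}

/-- twisted trace -/
noncomputable def TK (cl : 𝔐 → K) : MonoidAlgebra k (ZMod N → 𝔐) →+ (K →₀ k) :=
  (Finsupp.mapDomain.addMonoidHom fun g : ZMod N → 𝔐 => cl (prodSeq g)).comp
    MonoidAlgebra.coeffAddEquiv.toAddMonoidHom

theorem TK_apply (cl : 𝔐 → K) (x : MonoidAlgebra k (ZMod N → 𝔐)) :
    TK cl x = Finsupp.mapDomain (fun g : ZMod N → 𝔐 => cl (prodSeq g)) x.coeff := rfl

theorem TK_single (cl : 𝔐 → K) (g : ZMod N → 𝔐) (r : k) :
    TK cl (MonoidAlgebra.single g r) = Finsupp.single (cl (prodSeq g)) r := by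
  rw [TK_apply, MonoidAlgebra.coeff_single, Finsupp.mapDomain_single]

theorem TK_mul [NeZero N] (cl : 𝔐 → K) (hcl : ∀ a b, cl (a * b) = cl (b * a))
    (x y : MonoidAlgebra k (ZMod N → 𝔐)) : TK cl (x * y) = TK cl (y * rhoK k 1 x) := by
  induction x using MonoidAlgebra.induction_linear with
  | zero => simp
  | add x x' hx hx' => rw [add_mul, map_add, map_add, mul_add, map_add, hx, hx']
  | single g r =>
    induction y using MonoidAlgebra.induction_linear with
    | zero => simp
    | add y y' hy hy' => rw [mul_add, map_add, add_mul, map_add, hy, hy']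
    | single h s =>
      rw [rhoK_eq, MonoidAlgebra.mapDomain_single, MonoidAlgebra.single_mul_single,
        MonoidAlgebra.single_mul_single, TK_single, TK_single,
        prodSeq_mul_shift cl hcl, mul_comm r s]

theorem TK_norm [NeZero N] [IsDomain k] [CharZero k] (cl : 𝔐 → K)
    (hcl : ∀ a b, cl (a * b) = cl (b * a))
    (b : MonoidAlgebra k (ZMod N → 𝔐)) (hb : ∑ i, rhoK k i b = 0) : TK cl b = 0 := by
  have h1 : ∀ x : MonoidAlgebra k (ZMod N → 𝔐), TK cl (rhoK k 1 x) = TK cl x := fun x => by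
    have h := TK_mul cl hcl x 1
    rw [mul_one, one_mul] at h
    exact h.symm
  have h2 : ∀ (n : ℕ) (x : MonoidAlgebra k (ZMod N → 𝔐)),
      TK cl (rhoK k (n : ZMod N) x) = TK cl x := by
    intro n
    induction n with
    | zero => intro x; rw [Nat.cast_zero, rhoK_zero]
    | succ n ih => intro x; rw [Nat.cast_succ, rhoK_add, ih, h1]
  have h3 : ∀ (i : ZMod N), TK cl (rhoK k i b) = TK cl b := by
    intro i
    have h := h2 i.val b
    rwa [ZMod.natCast_zmod_val] at h
  have h4 := congrArg (TK cl) hb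
  rw [map_sum, Finset.sum_congr rfl fun i _ => h3 i, Finset.sum_const, map_zero,
    Finset.card_univ, ZMod.card] at h4
  ext κ
  have h5 := DFunLike.congr_fun h4 κ
  rw [Finsupp.smul_apply, Finsupp.zero_apply, nsmul_eq_mul] at h5
  rcases mul_eq_zero.1 h5 with h | h
  · exact absurd h (Nat.cast_ne_zero.2 (NeZero.ne N))
  · exact h

/-- the twisted trace modulo `N` -/
noncomputable def TmK (r : k →+* ZMod N) (cl : 𝔐 → K) :
    MonoidAlgebra k (ZMod N → 𝔐) →+ (K →₀ ZMod N) :=
  (Finsupp.mapRange.addMonoidHom r.toAddMonoidHom).comp (TK cl)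

theorem TmK_apply (r : k →+* ZMod N) (cl : 𝔐 → K) (x : MonoidAlgebra k (ZMod N → 𝔐)) :
    TmK r cl x = Finsupp.mapRange.addMonoidHom r.toAddMonoidHom (TK cl x) := rfl

/-- the cyclic data of a monoid with a class function -/
noncomputable def cycK (N : ℕ) [NeZero N] [IsDomain k] [CharZero k] (r : k →+* ZMod N)
    (cl : 𝔐 → K) (hcl : ∀ a b, cl (a * b) = cl (b * a)) :
    CycData N (MonoidAlgebra k (ZMod N → 𝔐)) (K →₀ ZMod N) where
  ρ := rhoK k
  ρ_zero := rhoK_zero
  ρ_add := rhoK_add
  T := TmK r cl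
  T_mul a b := by rw [TmK_apply, TmK_apply, TK_mul cl hcl]
  T_norm b hb := by rw [TmK_apply, TK_norm cl hcl b hb, map_zero]

/-- comparison of the traces over `ℤ` and over `k` -/
theorem TmK_int (r : k →+* ZMod N) (cl : 𝔐 → K) (x : MonoidAlgebra ℤ (ZMod N → 𝔐)) :
    TmK r cl (MonoidAlgebra.mapRingHom _ (Int.castRingHom k) x) = Tmod cl x := by
  induction x using MonoidAlgebra.induction_linear with
  | zero => simp
  | add x y hx hy => rw [map_add, map_add, hx, hy, map_add]
  | single g s =>
    rw [TmK_apply, Tmod_apply, MonoidAlgebra.mapRingHom_single, TK_single, Tint_single]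
    simp

end Shift

end Pool.Agent.FJJ
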