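import Pool.Agent.FJJ.Src

/-!
# The `K_{-1}`-part of the assembly map in degree one, with locally trivial values

The proof repeats the one of `Pool.Agent.Lib25.H2.main1`.
-/

set_option autoImplicit false
set_option linter.unusedSectionVars false

open Matrix TensorProduct Pool.Agent.WhK Pool.Agent.Lib25 Pool.Agent.Lib25.H2

namespace Pool.Agent.FJJ

universe v w

/-- The linear map `Src2 G → ℚ ⊗ K₁(ℤ[G])` with the additional information that its values are
locally trivial. -/
theorem main2 : ∃ κ : ∀ n : ℕ, ℕ → ∀ g : ℕ, K1 (MonoidAlgebra ℤ (CS n g)),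
    ∀ (G : Type v) [Group G], ∃ A : Src2 G →ₗ[ℚ] ℚ ⊗[ℤ] K1 (MonoidAlgebra ℤ G),
      (∀ (n p g : ℕ) (φ : CS n g →* G), 0 < n → p.Prime → p ∣ n →
        Function.Injective (fun c => φ (c, 1)) →
        A (sym2 p (φ (gH n g)) (mapW φ (gW n g))) = 1 ⊗ₜ[ℤ] k1g φ (κ n p g)) ∧
      (∀ y : Src2 G, ∃ D : ℕ, 0 < D ∧ ∃ x ∈ LocT G, (D : ℚ) • A y = 1 ⊗ₜ[ℤ] x) ∧
      ∀ y, A y = 0 → y ∈ Submodule.span ℚ {s | ∃ (p : ℕ) (h : G) (w : List (G × G)),
        Valid2 p h w ∧ ¬ IntDet h ∧ s = sym2 p h w} := by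
  classical
  obtain ⟨κ1, hκ1⟩ := exists_kappa4.{v}
  let κ : ∀ n : ℕ, ℕ → ∀ g : ℕ, K1 (MonoidAlgebra ℤ (CS n g)) := fun n p g =>
    if hn : 0 < n then (haveI : NeZero n := ⟨hn.ne'⟩; kapT (κ1 n) p g) else 0
  have hκ : ∀ (n : ℕ) [NeZero n] (p g : ℕ), κ n p g = kapT (κ1 n) p g := by
    intro n _ p g
    exact dif_pos (Nat.pos_of_ne_zero (NeZero.ne n))
  refine ⟨κ, fun G _ => ?_⟩
  obtain ⟨hloc, hadd, hnull, hfun⟩ := hκ1 G
  -- the value function
  have hV : ∀ t : ℕ × G × List (G × G), ∃ v : K1 (MonoidAlgebra ℤ G),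
      (¬ Valid2 t.1 t.2.1 t.2.2 → v = 0) ∧
      ∀ (n g : ℕ) (φ : CS n g →* G), 0 < n → t.1.Prime → t.1 ∣ n →
        Function.Injective (fun c => φ (c, 1)) → φ (gH n g) = t.2.1 →
        mapW φ (gW n g) = t.2.2 → v = k1g φ (κ n t.1 g) := by
    rintro ⟨p, h, w⟩
    by_cases hv : Valid2 p h w
    swap
    · refine ⟨0, fun _ => rfl, ?_⟩
      intro n g φ hn hp hpn hφ h1 h2
      exfalso
      apply hv
      have : NeZero n := ⟨hn.ne'⟩
      have h3 := orderOf_gH hn φ hφ
      change φ (gH n g) = h at h1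
      change mapW φ (gW n g) = w at h2
      rw [← h1, ← h2]
      exact ⟨hp, orderOf_pos_iff.1 (by rw [h3]; exact hn), by rw [h3]; exact hpn,
        ⟨CW_gW φ, surf_map_gW φ⟩⟩
    · have hpos : 0 < orderOf h := orderOf_pos_iff.2 hv.fin
      have : NeZero (orderOf h) := ⟨hpos.ne'⟩
      obtain ⟨φ0, h1, h2⟩ := exists_csHom (n := orderOf h) h w (pow_orderOf_eq_one h) hv.clw
      refine ⟨k1g φ0 (κ (orderOf h) p w.length), fun h => absurd hv h, ?_⟩
      intro n g φ hn hp hpn hφ h3 h4
      change φ (gH n g) = h at h3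
      change mapW φ (gW n g) = w at h4
      have h5 : orderOf h = n := by
        rw [← orderOf_gH hn φ hφ]
        exact congrArg orderOf h3.symm
      have h6 : w.length = g := by
        have : NeZero n := ⟨hn.ne'⟩
        rw [← h4, length_map_gW]
      have key : ∀ (m n : ℕ) (_ : m = n) [NeZero m] (g g' : ℕ) (_ : g = g')
          (φ0 : CS m g →* G) (φ : CS n g' →* G)
          (_ : φ0 (gH m g) = φ (gH n g')) (_ : mapW φ0 (gW m g) = mapW φ (gW n g')),
          k1g φ0 (κ m p g) = k1g φ (κ n p g') := by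
        intro m n hmn _ g g' hgg φ0 φ e1 e2
        subst hmn
        subst hgg
        rw [cs_ext e1 e2]
      exact key _ _ h5 _ _ h6 φ0 φ (h1.trans h3.symm) (h2.trans h4.symm)
  choose V hV0 hV1 using hV
  have hVloc : ∀ t, V t ∈ LocT G := by
    rintro ⟨p, h, w⟩
    by_cases hv : Valid2 p h w
    · have hpos : 0 < orderOf h := orderOf_pos_iff.2 hv.fin
      have : NeZero (orderOf h) := ⟨hpos.ne'⟩
      obtain ⟨φ, h1, h2⟩ := exists_csHom (n := orderOf h) h w (pow_orderOf_eq_one h) hv.clw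
      rw [hV1 (p, h, w) _ _ φ hpos hv.prime hv.dvd
        (injective_of_orderOf' φ (by rw [h1])) h1 h2, hκ]
      exact LocT_kapT (κ1 _) (fun q g φ hq hqn => hloc _ q g φ hpos hq hqn)
        (Nat.mem_primeFactors.2 ⟨hv.prime, hv.dvd, hpos.ne'⟩) φ
    · rw [hV0 _ hv]
      exact AddSubgroup.zero_mem _
  let A0 : (ℕ × G × List (G × G) →₀ ℚ) →ₗ[ℚ] ℚ ⊗[ℤ] K1 (MonoidAlgebra ℤ G) :=
    Finsupp.linearCombination ℚ (fun t => (1 : ℚ) ⊗ₜ[ℤ] V t)
  have hA0 : ∀ t (r : ℚ), A0 (Finsupp.single t r) = r • ((1 : ℚ) ⊗ₜ[ℤ] V t) := by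
    intro t r
    exact Finsupp.linearCombination_single ℚ r t
  have hrel : ∀ x, Rel2 G x → A0 x = 0 := by
    intro x hx
    cases hx with
    | invalid p h g hv => rw [hA0, hV0 _ hv, TensorProduct.tmul_zero, smul_zero]
    | null p h w hv hn =>
      have hpos : 0 < orderOf h := orderOf_pos_iff.2 hv.fin
      have : NeZero (orderOf h) := ⟨hpos.ne'⟩
      obtain ⟨φ, h1, h2⟩ := exists_csHom (n := orderOf h) h w (pow_orderOf_eq_one h) hv.clw
      have h3 : mt (V (p, h, w)) = 0 := by
        rw [hV1 (p, h, w) _ _ φ hpos hv.prime hv.dvd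
          (injective_of_orderOf' φ (by rw [h1])) h1 h2, hκ]
        refine kapT_null (κ1 _) (fun q g φ hq hqn hnn => hnull _ q g φ hpos hq hqn hnn)
          (Nat.mem_primeFactors.2 ⟨hv.prime, hv.dvd, hpos.ne'⟩) φ ?_
        rw [h1, h2]
        exact hn
      have h4 : (1 : ℚ) ⊗ₜ[ℤ] V (p, h, w) = (1 : ℚ) ⊗ₜ[ℤ] (0 : K1 (MonoidAlgebra ℤ G)) :=
        tmul_eq_of_mt (by rw [h3, map_zero])
      rw [hA0, h4, TensorProduct.tmul_zero, smul_zero]
    | add p h w w' hv hv' =>
      have hpos : 0 < orderOf h := orderOf_pos_iff.2 hv.fin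
      have : NeZero (orderOf h) := ⟨hpos.ne'⟩
      have hv'' : Valid2 p h (w ++ w') := ⟨hv.prime, hv.fin, hv.dvd, hv.clw.append hv'.clw⟩
      obtain ⟨φ, h1, h2⟩ := exists_csHom (n := orderOf h) h w (pow_orderOf_eq_one h) hv.clw
      obtain ⟨φ', h1', h2'⟩ := exists_csHom (n := orderOf h) h w' (pow_orderOf_eq_one h)
        hv'.clw
      obtain ⟨φ'', h1'', h2''⟩ := exists_csHom (n := orderOf h) h (w ++ w')
        (pow_orderOf_eq_one h) hv''.clw
      have h4 : mt (V (p, h, w ++ w')) = mt (V (p, h, w) + V (p, h, w')) := by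
        rw [hV1 (p, h, w ++ w') _ _ φ'' hpos hv.prime hv.dvd
          (injective_of_orderOf' φ'' (by rw [h1''])) h1'' h2'',
          hV1 (p, h, w) _ _ φ hpos hv.prime hv.dvd
          (injective_of_orderOf' φ (by rw [h1])) h1 h2,
          hV1 (p, h, w') _ _ φ' hpos hv.prime hv.dvd
          (injective_of_orderOf' φ' (by rw [h1'])) h1' h2', hκ, hκ, hκ, map_add]
        exact kapT_add (κ1 _) (fun q g g' g'' φ φ' φ'' hq hqn => hadd _ q g g' g'' φ φ' φ''
          hpos hq hqn) (Nat.mem_primeFactors.2 ⟨hv.prime, hv.dvd, hpos.ne'⟩) φ φ' φ''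
          (by rw [h1, h1']) (by rw [h1, h1'']) (by rw [h2, h2', h2''])
      rw [map_sub, map_sub, hA0, hA0, hA0, tmul_eq_of_mt h4, TensorProduct.tmul_add]
      simp only [one_smul]
      abel
    | conj p h x w hv =>
      have hpos : 0 < orderOf h := orderOf_pos_iff.2 hv.fin
      have : NeZero (orderOf h) := ⟨hpos.ne'⟩
      obtain ⟨φ, h1, h2⟩ := exists_csHom (n := orderOf h) h w (pow_orderOf_eq_one h) hv.clw
      let φ' : CS (orderOf h) w.length →* G := (MulAut.conj x).toMonoidHom.comp φ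
      have h1' : φ' (gH _ _) = x * h * x⁻¹ := by
        change MulAut.conj x (φ (gH _ _)) = _
        rw [h1]
        rfl
      have h2' : mapW φ' (gW _ _) = mapW (fun y => x * y * x⁻¹) w := by
        conv_rhs => rw [← h2, mapW_mapW]
        rfl
      have hinj : Function.Injective (fun c => φ (c, 1)) :=
        injective_of_orderOf' φ (by rw [h1])
      have hinj' : Function.Injective (fun c => φ' (c, 1)) := by
        intro c c' hcc
        exact hinj ((MulAut.conj x).injective hcc)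
      have h4 : V (p, x * h * x⁻¹, mapW (fun y => x * y * x⁻¹) w) = V (p, h, w) := by
        rw [hV1 (p, x * h * x⁻¹, mapW (fun y => x * y * x⁻¹) w) _ _ φ' hpos hv.prime hv.dvd
          hinj' h1' h2', hV1 (p, h, w) _ _ φ hpos hv.prime hv.dvd hinj h1 h2]
        rw [← k1g_comp, k1g_conj]
      rw [map_sub, hA0, hA0, h4, sub_self]
    | frob p h h' w j k hv hz hpw =>
      have hpos : 0 < orderOf h := orderOf_pos_iff.2 hv.fin
      have : NeZero (orderOf h) := ⟨hpos.ne'⟩
      obtain ⟨φ, h1, h2⟩ := exists_csHom (n := orderOf h) h w (pow_orderOf_eq_one h) hv.clw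
      obtain ⟨u, hu⟩ := exists_unit_of_zpowers (n := orderOf h) rfl hz
      have hrel : uRel (orderOf h) p u 1 := by
        refine ⟨k, j, ?_⟩
        rw [hu, ← pow_mul, pow_eq_pow_iff_modEq, ← ZMod.natCast_eq_natCast_iff] at hpw
        push_cast at hpw
        rw [ZMod.natCast_zmod_val] at hpw
        rw [Units.val_one, one_mul]
        exact hpw.symm
      have h1' : (φ.comp (alS _ u)) (gH _ _) = h' := by
        rw [comp_alS_gH, h1, hu]
      have h2' : mapW (φ.comp (alS _ u)) (gW _ _) = w := by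
        rw [mapW_comp_alS, h2]
      have hord' : orderOf h' = orderOf h := by
        rw [← Nat.card_zpowers, ← hz, Nat.card_zpowers]
      have h4 : V (p, h', w) = V (p, h, w) := by
        rw [hV1 (p, h', w) _ _ (φ.comp (alS _ u)) hpos hv.prime hv.dvd
          (injective_of_orderOf' _ (by rw [h1', hord'])) h1' h2',
          hV1 (p, h, w) _ _ φ hpos hv.prime hv.dvd (injective_of_orderOf' φ (by rw [h1])) h1 h2]
        change k1g _ (κ (orderOf h) p _) = k1g _ (κ (orderOf h) p _)
        rw [← k1g_twS, hκ]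
        congr 1
        exact T_ak3 (T := twS w.length) (fun u w x => twS_twS _ u w x) p u hrel
      rw [map_sub, hA0, hA0, h4, sub_self]
    | sum h w hfin hc =>
      have hpos : 0 < orderOf h := orderOf_pos_iff.2 hfin
      have : NeZero (orderOf h) := ⟨hpos.ne'⟩
      obtain ⟨φ, h1, h2⟩ := exists_csHom (n := orderOf h) h w (pow_orderOf_eq_one h) hc
      have h3 : ∀ p ∈ (orderOf h).primeFactors, ∀ u : (ZMod (orderOf h))ˣ,
          V (p, h ^ (u : ZMod (orderOf h)).val, w) =
            k1g φ (twS w.length u (κ (orderOf h) p w.length)) := by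
        intro p hp u
        have h1' : (φ.comp (alS _ u)) (gH _ _) = h ^ (u : ZMod (orderOf h)).val := by
          rw [comp_alS_gH, h1]
        have h2' : mapW (φ.comp (alS _ u)) (gW _ _) = w := by
          rw [mapW_comp_alS, h2]
        rw [hV1 (p, h ^ (u : ZMod (orderOf h)).val, w) _ _ (φ.comp (alS _ u)) hpos
          (Nat.prime_of_mem_primeFactors hp) (Nat.dvd_of_mem_primeFactors hp)
          (injective_of_orderOf' _ (by rw [h1', orderOf_pow_val rfl])) h1' h2', k1g_twS]
      have h4 : A0 (∑ p ∈ (orderOf h).primeFactors,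
          ∑ a ∈ (Finset.range (orderOf h)).filter (fun a => a.Coprime (orderOf h)),
          Finsupp.single (p, h ^ a, w) 1) =
          (1 : ℚ) ⊗ₜ[ℤ] k1g φ
            (∑ q ∈ (orderOf h).primeFactors, ∑ u : (ZMod (orderOf h))ˣ,
              twS w.length u (kapT (κ1 (orderOf h)) q w.length)) := by
        rw [map_sum, map_sum, TensorProduct.tmul_sum]
        apply Finset.sum_congr rfl
        intro p hp
        rw [map_sum, map_sum, TensorProduct.tmul_sum]
        refine Eq.symm (Finset.sum_bij (fun (u : (ZMod (orderOf h))ˣ) _ =>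
          (u : ZMod (orderOf h)).val) ?_ ?_ ?_ ?_)
        · intro u _
          rw [Finset.mem_filter, Finset.mem_range]
          exact ⟨ZMod.val_lt _, ZMod.val_coe_unit_coprime u⟩
        · intro u _ v _ huv
          exact Units.ext (ZMod.val_injective _ huv)
        · intro a ha
          rw [Finset.mem_filter, Finset.mem_range] at ha
          refine ⟨ZMod.unitOfCoprime a ha.2, Finset.mem_univ _, ?_⟩
          rw [ZMod.coe_unitOfCoprime, ZMod.val_natCast, Nat.mod_eq_of_lt ha.1]
        · intro u _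
          rw [hA0, h3 p hp u, hκ, one_smul]
      have h5 : ∑ q ∈ (orderOf h).primeFactors, ∑ u : (ZMod (orderOf h))ˣ,
          twS w.length u (kapT (κ1 (orderOf h)) q w.length) = 0 :=
        sum_ak3 (T := twS w.length) (κ := fun q => κ1 (orderOf h) q w.length)
          (fun u w x => twS_twS _ u w x)
      rw [h4, h5, map_zero, TensorProduct.tmul_zero]
  have hle : Submodule.span ℚ {x | Rel2 G x} ≤ LinearMap.ker A0 := by
    rw [Submodule.span_le]
    intro x hx
    exact hrel x hx
  let A : Src2 G →ₗ[ℚ] ℚ ⊗[ℤ] K1 (MonoidAlgebra ℤ G) :=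
    (Submodule.span ℚ {x | Rel2 G x}).liftQ A0 hle
  have hA : ∀ x : ℕ × G × List (G × G) →₀ ℚ, A (srcMk2 G x) = A0 x := fun x => rfl
  refine ⟨A, ?_, ?_, ?_⟩
  · intro n p g φ hn hp hpn hφ
    unfold sym2
    rw [hA, hA0, one_smul,
      hV1 (p, φ (gH n g), mapW φ (gW n g)) n g φ hn hp hpn hφ rfl rfl]
  · intro s
    obtain ⟨x, rfl⟩ := Submodule.Quotient.mk_surjective (Submodule.span ℚ {x | Rel2 G x}) s
    change ∃ D : ℕ, 0 < D ∧ ∃ z ∈ LocT G, (D : ℚ) • A0 x = 1 ⊗ₜ[ℤ] z
    have hden : ∃ D : ℕ, 0 < D ∧ ∀ t ∈ x.support, ∃ m : ℤ, (D : ℚ) * x t = m := by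
      refine ⟨∏ t ∈ x.support, (x t).den, Finset.prod_pos fun t _ => Rat.den_pos _, ?_⟩
      intro t ht
      obtain ⟨d, hd⟩ := Finset.dvd_prod_of_mem (fun t => (x t).den) ht
      refine ⟨d * (x t).num, ?_⟩
      rw [hd]
      push_cast
      have h1 := Rat.mul_den_eq_num (x t)
      linear_combination (d : ℚ) * h1
    obtain ⟨D, hD, hden⟩ := hden
    choose! c hc using hden
    refine ⟨D, hD, ∑ t ∈ x.support, c t • V t,
      AddSubgroup.sum_mem _ fun t _ => AddSubgroup.zsmul_mem _ (hVloc t) _, ?_⟩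
    change (D : ℚ) • Finsupp.linearCombination ℚ (fun t => (1 : ℚ) ⊗ₜ[ℤ] V t) x = _
    rw [Finsupp.linearCombination_apply, Finsupp.sum, Finset.smul_sum, TensorProduct.tmul_sum]
    refine Finset.sum_congr rfl fun t ht => ?_
    rw [smul_smul, hc t ht, TensorProduct.tmul_smul, Int.cast_smul_eq_zsmul]
  · intro s hy
    obtain ⟨x, rfl⟩ := Submodule.Quotient.mk_surjective (Submodule.span ℚ {x | Rel2 G x}) s
    change A (srcMk2 G x) = 0 at hy
    change srcMk2 G x ∈ _
    rw [hA] at hy
    -- applying additive functions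
    have happ : ∀ F : K1 (MonoidAlgebra ℤ G) →+ ℚ,
        ∑ t ∈ x.support, x t * F (V t) = 0 := by
      intro F
      have h1 := congrArg (LinearMap.liftBaseChange ℚ F.toIntLinearMap) hy
      rw [map_zero] at h1
      rw [← h1]
      change _ = LinearMap.liftBaseChange ℚ F.toIntLinearMap
        (Finsupp.linearCombination ℚ (fun t => (1 : ℚ) ⊗ₜ[ℤ] V t) x)
      rw [Finsupp.linearCombination_apply, Finsupp.sum, map_sum]
      apply Finset.sum_congr rfl
      intro t _
      rw [map_smul, LinearMap.liftBaseChange_tmul, one_smul]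
      rfl
    -- the functionals
    obtain ⟨S, hS⟩ : ∃ S : Finset (ℕ × G × List (G × G)),
        S = x.support.filter (fun t => Valid2 t.1 t.2.1 t.2.2) := ⟨_, rfl⟩
    have hSmem : ∀ t, t ∈ S ↔ t ∈ x.support ∧ Valid2 t.1 t.2.1 t.2.2 := by
      intro t
      rw [hS, Finset.mem_filter]
    have hSsub : S ⊆ x.support := fun t ht => ((hSmem t).1 ht).1
    have hSv : ∀ t ∈ S, Valid2 t.1 t.2.1 t.2.2 := fun t ht => ((hSmem t).1 ht).2
    clear hS
    let ω : ℕ → ℕ := fun n => if hn : 0 < n then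
      (haveI : NeZero n := ⟨hn.ne'⟩; n.primeFactors.card * Fintype.card (ZMod n)ˣ *
        ∏ q ∈ n.primeFactors, (ucl q (1 : (ZMod n)ˣ)).card) else 1
    have hω : ∀ (n : ℕ) [NeZero n], ω n = n.primeFactors.card * Fintype.card (ZMod n)ˣ *
        ∏ q ∈ n.primeFactors, (ucl q (1 : (ZMod n)ˣ)).card := by
      intro n _
      exact dif_pos (Nat.pos_of_ne_zero (NeZero.ne n))
    have hωpos : ∀ t ∈ S, (ω (orderOf t.2.1) : ℚ) ≠ 0 := by
      intro t ht
      have hv := hSv t ht
      have hpos : 0 < orderOf t.2.1 := orderOf_pos_iff.2 hv.fin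
      have : NeZero (orderOf t.2.1) := ⟨hpos.ne'⟩
      rw [hω]
      refine Nat.cast_ne_zero.2 (Nat.mul_ne_zero (Nat.mul_ne_zero ?_ ?_) ?_)
      · exact (Finset.card_pos.2 ⟨t.1, Nat.mem_primeFactors.2
          ⟨hv.prime, hv.dvd, hpos.ne'⟩⟩).ne'
      · exact Fintype.card_ne_zero
      · exact (Finset.prod_pos fun q _ => card_ucl_pos q _).ne'
    have hfun2 : ∀ L : ℕ → G → G → G → ℤ, IsAdm2 L → ∑ t ∈ S, x t *
        ((ω (orderOf t.2.1) : ℚ) * ((evw (L t.1 t.2.1) t.2.2 : ℤ) : ℚ)) = 0 := by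
      intro L hL
      obtain ⟨F, hF⟩ := hfun L hL
      have h1 := happ F
      have h2 : ∀ t ∈ x.support, t ∉ S → x t * F (V t) = 0 := by
        intro t ht htS
        have hv : ¬ Valid2 t.1 t.2.1 t.2.2 := fun hv => htS ((hSmem t).2 ⟨ht, hv⟩)
        rw [hV0 t hv, map_zero, mul_zero]
      rw [← Finset.sum_subset hSsub h2] at h1
      rw [← h1]
      apply Finset.sum_congr rfl
      intro t ht
      have hv := hSv t ht
      have hpos : 0 < orderOf t.2.1 := orderOf_pos_iff.2 hv.fin
      have : NeZero (orderOf t.2.1) := ⟨hpos.ne'⟩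
      obtain ⟨φ, h1, h2⟩ := exists_csHom (n := orderOf t.2.1) t.2.1 t.2.2
        (pow_orderOf_eq_one _) hv.clw
      have hinj := injective_of_orderOf' φ (by rw [h1])
      rw [hV1 t _ _ φ hpos hv.prime hv.dvd hinj h1 h2, hκ,
        functional_kapT (κ1 _) L hL F (fun p g φ hp hpn hφ => hF _ p g φ hpos hp hpn hφ) t.1 _
          (Nat.mem_primeFactors.2 ⟨hv.prime, hv.dvd, hpos.ne'⟩) φ hinj, h1, h2, hω]
    have hfun3 : ∀ L : ℕ → G → G → G → ℤ, IsAdm2 L →
        ∑ t ∈ S, x t * ((evw (L t.1 t.2.1) t.2.2 : ℤ) : ℚ) = 0 := by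
      intro L hL
      rw [← Finset.sum_fiberwise_of_maps_to (t := S.image (fun t => orderOf t.2.1))
        (g := fun t => orderOf t.2.1) (fun t ht => Finset.mem_image_of_mem _ ht)]
      apply Finset.sum_eq_zero
      intro n hn
      obtain ⟨t0, ht0, rfl⟩ := Finset.mem_image.1 hn
      let L' : ℕ → G → G → G → ℤ := fun p h => if orderOf h = orderOf t0.2.1 then L p h
        else fun _ _ => 0
      have hL0 : ∀ p h, orderOf h = orderOf t0.2.1 → L' p h = L p h := fun p h hh => if_pos hh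
      have hL1 : ∀ p h, orderOf h ≠ orderOf t0.2.1 → L' p h = fun _ _ => 0 :=
        fun p h hh => if_neg hh
      have hL' : IsAdm2 L' := by
        refine ⟨?_, ?_, ?_, ?_⟩
        · intro p h
          by_cases hh : orderOf h = orderOf t0.2.1
          · rw [hL0 p h hh]
            exact hL.coc p h
          · rw [hL1 p h hh]
            exact ⟨fun _ _ _ _ _ _ => rfl, fun _ _ => rfl, fun _ _ => rfl⟩
        · intro p h y w hw
          have h1 : orderOf (y * h * y⁻¹) = orderOf h := by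
            have : IsConj h (y * h * y⁻¹) := isConj_iff.2 ⟨y, rfl⟩
            obtain ⟨u, hu⟩ := this
            exact (hu.orderOf_eq (u : G)).symm
          by_cases hh : orderOf h = orderOf t0.2.1
          · rw [hL0 p h hh, hL0 p _ (by rw [h1]; exact hh)]
            exact hL.conj p h y w hw
          · rw [hL1 p h hh, hL1 p _ (by rw [h1]; exact hh), evw_zero, evw_zero]
        · intro p h h' w j k hw hz hpw
          have hord' : orderOf h' = orderOf h := by
            rw [← Nat.card_zpowers, ← hz, Nat.card_zpowers]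
          by_cases hh : orderOf h = orderOf t0.2.1
          · rw [hL0 p h hh, hL0 p _ (by rw [hord']; exact hh)]
            exact hL.frob p h h' w j k hw hz hpw
          · rw [hL1 p h hh, hL1 p _ (by rw [hord']; exact hh)]
        · intro h w hfin hw
          by_cases ho : orderOf h = orderOf t0.2.1
          · rw [← hL.sum h w hfin hw]
            apply Finset.sum_congr rfl
            intro p _
            apply Finset.sum_congr rfl
            intro a ha
            rw [Finset.mem_filter] at ha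
            rw [hL0]
            rw [Nat.Coprime.orderOf_pow (Nat.coprime_comm.1 ha.2), ho]
          · apply Finset.sum_eq_zero
            intro p _
            apply Finset.sum_eq_zero
            intro a ha
            rw [Finset.mem_filter] at ha
            rw [hL1, evw_zero]
            rw [Nat.Coprime.orderOf_pow (Nat.coprime_comm.1 ha.2)]
            exact ho
      have h1 := hfun2 L' hL'
      have h2 : ∑ t ∈ S, x t * ((ω (orderOf t.2.1) : ℚ) *
          ((evw (L' t.1 t.2.1) t.2.2 : ℤ) : ℚ)) =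
          (ω (orderOf t0.2.1) : ℚ) * ∑ t ∈ S.filter (fun t => orderOf t.2.1 = orderOf t0.2.1),
            x t * ((evw (L t.1 t.2.1) t.2.2 : ℤ) : ℚ) := by
        rw [Finset.mul_sum, Finset.sum_filter]
        apply Finset.sum_congr rfl
        intro t _
        split_ifs with h3
        · rw [hL0 _ _ h3, h3]
          ring
        · rw [hL1 _ _ h3, evw_zero]
          simp
      rw [h2] at h1
      exact (mul_eq_zero.1 h1).resolve_left (hωpos t0 ht0)
    -- integral coefficients
    have hden : ∃ D : ℕ, 0 < D ∧ ∀ t ∈ S, ∃ m : ℤ, (D : ℚ) * x t = m := by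
      refine ⟨∏ t ∈ S, (x t).den, Finset.prod_pos fun t _ => Rat.den_pos _, ?_⟩
      intro t ht
      obtain ⟨d, hd⟩ := Finset.dvd_prod_of_mem (fun t => (x t).den) ht
      refine ⟨d * (x t).num, ?_⟩
      rw [hd]
      push_cast
      have h1 := Rat.mul_den_eq_num (x t)
      linear_combination (d : ℚ) * h1
    obtain ⟨D, hD, hden⟩ := hden
    have hDQ : (D : ℚ) ≠ 0 := Nat.cast_ne_zero.2 hD.ne'
    let c : ℕ × G × List (G × G) → ℤ := fun t => if ht : t ∈ S then (hden t ht).choose else 0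
    have hc : ∀ t ∈ S, (D : ℚ) * x t = c t := by
      intro t ht
      simp only [c]
      rw [dif_pos ht]
      exact (hden t ht).choose_spec
    have hspan := span_of_adm2 S (fun t => t.1) (fun t => t.2.1) (fun t => t.2.2) c hSv (by
      intro L hL
      have h1 := hfun3 L hL
      have h2 : ∑ t ∈ S, (c t : ℚ) * ((evw (L t.1 t.2.1) t.2.2 : ℤ) : ℚ) =
          (D : ℚ) * ∑ t ∈ S, x t * ((evw (L t.1 t.2.1) t.2.2 : ℤ) : ℚ) := by
        rw [Finset.mul_sum]
        apply Finset.sum_congr rfl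
        intro t ht
        rw [← hc t ht]
        ring
      rw [h2, h1, mul_zero])
    have hgood := srcMk2_eq_zero hspan
    rw [map_sum] at hgood
    have hsym : ∀ (t : ℕ × G × List (G × G)) (a : ℚ), srcMk2 G (Finsupp.single t a) =
        a • sym2 t.1 t.2.1 t.2.2 := by
      intro t a
      unfold sym2
      rw [← map_smul, Finsupp.smul_single, smul_eq_mul, mul_one]
    have hDx : (D : ℚ) • srcMk2 G x = ∑ t ∈ S, (c t : ℚ) • sym2 t.1 t.2.1 t.2.2 := by
      have h1 : x = ∑ t ∈ x.support, Finsupp.single t (x t) := (Finsupp.sum_single x).symm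
      conv_lhs => rw [h1]
      rw [map_sum, Finset.smul_sum]
      have h2 : ∀ t ∈ x.support, t ∉ S → (D : ℚ) • srcMk2 G (Finsupp.single t (x t)) = 0 := by
        intro t ht htS
        have hv : ¬ Valid2 t.1 t.2.1 t.2.2 := fun hv => htS ((hSmem t).2 ⟨ht, hv⟩)
        have h3 : sym2 t.1 t.2.1 t.2.2 = 0 :=
          srcMk2_eq_zero (Submodule.subset_span (Rel2.invalid _ _ _ hv))
        rw [hsym, h3, smul_zero, smul_zero]
      rw [← Finset.sum_subset hSsub h2]
      apply Finset.sum_congr rfl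
      intro t ht
      rw [hsym, smul_smul, hc t ht]
    have hfinal : (D : ℚ) • srcMk2 G x ∈ Submodule.span ℚ {s | ∃ (p : ℕ) (h : G)
        (w : List (G × G)), Valid2 p h w ∧ ¬ IntDet h ∧ s = sym2 p h w} := by
      rw [hDx, ← Finset.sum_filter_add_sum_filter_not S (fun t => IntDet t.2.1)]
      have h1 : ∑ t ∈ S.filter (fun t => IntDet t.2.1),
          (c t : ℚ) • sym2 t.1 t.2.1 t.2.2 = 0 := by
        rw [← hgood]
        apply Finset.sum_congr rfl
        intro t _
        rw [hsym]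
      rw [h1, zero_add]
      apply Submodule.sum_mem
      intro t ht
      exact Submodule.smul_mem _ _ (Submodule.subset_span
        ⟨t.1, t.2.1, t.2.2, hSv t (Finset.mem_filter.1 ht).1, (Finset.mem_filter.1 ht).2, rfl⟩)
    have h1 := Submodule.smul_mem _ ((D : ℚ)⁻¹) hfinal
    rwa [smul_smul, inv_mul_cancel₀ hDQ, one_smul] at h1

end Pool.Agent.FJJ
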