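import Mathlib

/-!
# Elements of the tensor product of `ℚ` with an abelian group
-/

set_option autoImplicit false

open TensorProduct

namespace Pool.Agent.FJJ

variable {M N : Type*} [AddCommGroup M] [AddCommGroup N]

theorem smul_one_tmul (D : ℕ) (m : M) :
    (D : ℚ) • ((1 : ℚ) ⊗ₜ[ℤ] m) = (1 : ℚ) ⊗ₜ[ℤ] (D • m) := by
  rw [TensorProduct.smul_tmul', smul_eq_mul, mul_one]
  have h : (D : ℚ) = (D : ℤ) • (1 : ℚ) := by
    rw [zsmul_eq_mul, mul_one, Int.cast_natCast]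
  rw [h, TensorProduct.smul_tmul, natCast_zsmul]

/-- every element has a multiple of the form `1 ⊗ m` -/
theorem exists_tmul (a : ℚ ⊗[ℤ] M) : ∃ D : ℕ, 0 < D ∧ ∃ m : M, (D : ℚ) • a = 1 ⊗ₜ[ℤ] m := by
  induction a using TensorProduct.induction_on with
  | zero => exact ⟨1, one_pos, 0, by rw [smul_zero, TensorProduct.tmul_zero]⟩
  | tmul q m =>
    refine ⟨q.den, q.den_pos, q.num • m, ?_⟩
    rw [TensorProduct.smul_tmul', smul_eq_mul, mul_comm, Rat.mul_den_eq_num]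
    have h : (q.num : ℚ) = q.num • (1 : ℚ) := by rw [zsmul_eq_mul, mul_one]
    rw [h, TensorProduct.smul_tmul]
  | add x y hx hy =>
    obtain ⟨D, hD, m, h⟩ := hx
    obtain ⟨D', hD', m', h'⟩ := hy
    refine ⟨D * D', Nat.mul_pos hD hD', D' • m + D • m', ?_⟩
    rw [smul_add, TensorProduct.tmul_add, ← smul_one_tmul, ← smul_one_tmul, ← h, ← h', smul_smul,
      smul_smul, Nat.cast_mul, mul_comm (D' : ℚ) (D : ℚ)]

/-- if `1 ⊗ m` vanishes then `m` is a torsion element -/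
theorem torsion_of_tmul {m : M} (h : (1 : ℚ) ⊗ₜ[ℤ] m = 0) : ∃ n : ℕ, 0 < n ∧ n • m = 0 := by
  by_contra hcon
  push Not at hcon
  let f : ℤ →ₗ[ℤ] M := LinearMap.toSpanSingleton ℤ M m
  have hf : Function.Injective f := by
    rw [injective_iff_map_eq_zero]
    intro k hk
    change k • m = 0 at hk
    by_contra hk0
    have h1 : k.natAbs • m = 0 := by
      rcases Int.natAbs_eq k with h2 | h2
      · rw [h2, natCast_zsmul] at hk
        exact hk
      · rw [h2, neg_zsmul, natCast_zsmul, neg_eq_zero] at hk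
        exact hk
    exact hcon _ (Int.natAbs_pos.2 hk0) h1
  have h1 := Module.Flat.lTensor_preserves_injective_linearMap (M := ℚ) f hf
  have h2 : LinearMap.lTensor ℚ f ((1 : ℚ) ⊗ₜ[ℤ] (1 : ℤ)) = 0 := by
    rw [LinearMap.lTensor_tmul]
    change (1 : ℚ) ⊗ₜ[ℤ] ((1 : ℤ) • m) = 0
    rw [one_zsmul, h]
  have h3 : (1 : ℚ) ⊗ₜ[ℤ] (1 : ℤ) = 0 := h1 (h2.trans (map_zero _).symm)
  have h4 := congrArg (TensorProduct.rid ℤ ℚ) h3
  rw [TensorProduct.rid_tmul, map_zero, one_zsmul] at h4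
  exact one_ne_zero h4

/-- the image of a torsion element vanishes -/
theorem tmul_eq_zero_of_torsion {m : M} {n : ℕ} (hn : 0 < n) (h : n • m = 0) :
    (1 : ℚ) ⊗ₜ[ℤ] m = 0 := by
  have h1 := smul_one_tmul n m
  rw [h, TensorProduct.tmul_zero] at h1
  exact (smul_eq_zero.1 h1).resolve_left (Nat.cast_ne_zero.2 hn.ne')

end Pool.Agent.FJJ
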