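import Pool.Agent.FJJ.Core
import Pool.Agent.FJJ.Main2
import Pool.Agent.FJJ.Tens

/-!
# The complete source in degree one
-/

set_option autoImplicit false

open Matrix TensorProduct Pool.Agent.WhK Pool.Agent.Lib25 Pool.Agent.Lib25.H2

namespace Pool.Agent.FJJ

universe u

variable {G : Type u} [Group G]

theorem asmF_nsmul_thF {c : ColimF G} {d : ColimK1 G} {N : ℕ} (h : thF G d = N • c) (m : ℕ) :
    liftColim (K1.unitHom (MonoidAlgebra ℤ G)) (m • d) = (m * N) • (asmF G c : K1 _) := by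
  rw [← asmF_thF, map_nsmul, h, smul_smul, map_nsmul]

/-- the independence of the three parts -/
theorem joint (a : ℚ ⊗[ℤ] Additive (Abelianization G)) (b : ℚ ⊗[ℤ] ColimF G)
    (z : ℚ ⊗[ℤ] K1Z G)
    (hz : ∃ D : ℕ, 0 < D ∧ ∃ x : K1Z G, (show K1 (MonoidAlgebra ℤ G) from x) ∈ LocT G ∧
      (D : ℚ) • z = 1 ⊗ₜ[ℤ] x)
    (h : (abHom G).toIntLinearMap.baseChange ℚ a + (asmF G).toIntLinearMap.baseChange ℚ b + z = 0) :
    a = 0 ∧ b = 0 := by
  obtain ⟨D1, hD1, α, hα⟩ := exists_tmul a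
  obtain ⟨D2, hD2, c, hc⟩ := exists_tmul b
  obtain ⟨D3, hD3, x, hx, hx3⟩ := hz
  obtain ⟨N, hN, d, hd⟩ := mem_sat_thF c
  obtain ⟨g, hg⟩ : ∃ g : G, Abelianization.of g = α.toMul := by
    obtain ⟨g, hg⟩ := QuotientGroup.mk_surjective α.toMul
    exact ⟨g, hg⟩
  have ha : (D1 : ℚ) • (abHom G).toIntLinearMap.baseChange ℚ a = 1 ⊗ₜ[ℤ] unitCls g := by
    rw [← map_smul, hα, LinearMap.baseChange_tmul]
    congr 1
    rw [← abHom_of, hg]
    rfl
  have hb : (D2 : ℚ) • (asmF G).toIntLinearMap.baseChange ℚ b = 1 ⊗ₜ[ℤ] asmF G c := by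
    rw [← map_smul, hc, LinearMap.baseChange_tmul]
    rfl
  have h1 : (1 : ℚ) ⊗ₜ[ℤ] ((D2 * D3 * N) • unitCls g + (D1 * D3 * N) • asmF G c +
      (D1 * D2 * N) • x) = 0 := by
    rw [TensorProduct.tmul_add, TensorProduct.tmul_add, ← smul_one_tmul, ← smul_one_tmul,
      ← smul_one_tmul, ← ha, ← hb, ← hx3, smul_smul, smul_smul, smul_smul]
    have e := congrArg (fun y => ((D1 * D2 * D3 * N : ℕ) : ℚ) • y) h
    simp only [smul_add, smul_zero] at e
    rw [← e]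
    push_cast
    congr 1
    · congr 1
      · congr 1
        ring
      · congr 1
        ring
    · congr 1
      ring
  obtain ⟨M, hM, h2⟩ := torsion_of_tmul h1
  have h3 : K1.ofUnit (gUnit (g ^ (M * (D2 * D3 * N)))) +
      liftColim (K1.unitHom (MonoidAlgebra ℤ G)) ((M * (D1 * D3)) • d) +
      (M * (D1 * D2 * N)) • (show K1 (MonoidAlgebra ℤ G) from x) = 0 := by
    have e8 : gUnit (g ^ (M * (D2 * D3 * N))) = gUnit g ^ (M * (D2 * D3 * N)) := by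
      unfold gUnit
      rw [map_pow, map_pow]
    rw [e8, ofUnit_pow, asmF_nsmul_thF hd]
    rw [smul_add, smul_add, smul_smul, smul_smul, smul_smul] at h2
    have e9 : M * (D1 * D3) * N = M * (D1 * D3 * N) := by ring
    rw [e9]
    exact h2
  obtain ⟨n, hn, hnd, hng⟩ := core _ _ _ (AddSubgroup.nsmul_mem _ hx _) h3
  constructor
  · have e1 : (M * (D2 * D3 * N) * n) • α = 0 := by
      have e2 : (g ^ (M * (D2 * D3 * N))) ^ n = g ^ (M * (D2 * D3 * N) * n) := (pow_mul g _ n).symm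
      rw [e2, map_pow, hg] at hng
      exact congrArg Additive.ofMul hng
    have e2 : (D1 : ℚ) • a = 0 := by
      rw [hα]
      exact tmul_eq_zero_of_torsion (n := M * (D2 * D3 * N) * n) (by positivity) e1
    exact (smul_eq_zero.1 e2).resolve_left (Nat.cast_ne_zero.2 hD1.ne')
  · have e1 : (n * (M * (D1 * D3)) * N) • c = 0 := by
      rw [mul_smul, ← hd, ← map_nsmul, mul_smul, hnd, map_zero]
    have e2 : (D2 : ℚ) • b = 0 := by
      rw [hc]
      exact tmul_eq_zero_of_torsion (n := n * (M * (D1 * D3)) * N) (by positivity) e1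
    exact (smul_eq_zero.1 e2).resolve_left (Nat.cast_ne_zero.2 hD2.ne')

/-- The assembly map on the complete source, and its kernel. -/
theorem main3 : ∃ κ : ∀ n : ℕ, ℕ → ∀ g : ℕ, K1Z (CS n g), ∀ (G : Type u) [Group G],
    ∃ A : SrcOne G →ₗ[ℚ] QK1Z G, IsAssemblyOne κ A ∧
      ∀ y : SrcOne G, A y = 0 → ∃ z ∈ undetected2 G, y = (0, 0, z) := by
  obtain ⟨κ, hκ⟩ := main2.{u}
  refine ⟨κ, fun G _ => ?_⟩
  obtain ⟨A2, h1, h2, h3⟩ := hκ G
  let A2' : Src2 G →ₗ[ℚ] ℚ ⊗[ℤ] K1Z G := A2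
  let A : (ℚ ⊗[ℤ] Additive (Abelianization G)) × (ℚ ⊗[ℤ] ColimF G) × Src2 G →ₗ[ℚ]
      ℚ ⊗[ℤ] K1Z G :=
    LinearMap.coprod ((abHom G).toIntLinearMap.baseChange ℚ)
      (LinearMap.coprod ((asmF G).toIntLinearMap.baseChange ℚ) A2')
  have hA : ∀ a b y, A (a, b, y) = (abHom G).toIntLinearMap.baseChange ℚ a +
      ((asmF G).toIntLinearMap.baseChange ℚ b + A2' y) := fun a b y => rfl
  refine ⟨A, ⟨fun g => ?_, fun H x => ?_, fun n p g φ hn hp hpn hφ => ?_⟩, ?_⟩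
  · show A ((1 : ℚ) ⊗ₜ[ℤ] Additive.ofMul (Abelianization.of g), 0, 0) = 1 ⊗ₜ[ℤ] unitCls g
    rw [hA, map_zero, map_zero, add_zero, add_zero, LinearMap.baseChange_tmul]
    congr 1
  · show A (0, (1 : ℚ) ⊗ₜ[ℤ] ColimF.mk H x, 0) = 1 ⊗ₜ[ℤ] K1Z.map H.sub.subtype x
    rw [hA, map_zero, map_zero, add_zero, zero_add, LinearMap.baseChange_tmul]
    congr 1
    exact asmF_mk H x
  · show A (0, 0, sym2 p (φ (gH n g)) (mapW φ (gW n g))) = 1 ⊗ₜ[ℤ] K1Z.map φ (κ n p g)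
    rw [hA, map_zero, map_zero, zero_add, zero_add]
    exact h1 n p g φ hn hp hpn hφ
  · rintro ⟨a, b, y⟩ hy
    have hy' : (abHom G).toIntLinearMap.baseChange ℚ a +
        (asmF G).toIntLinearMap.baseChange ℚ b + A2' y = 0 := by
      rw [add_assoc]
      exact hy
    obtain ⟨ha, hb⟩ := joint a b (A2' y) (h2 y) hy'
    subst ha
    subst hb
    rw [map_zero, map_zero, zero_add, zero_add] at hy'
    exact ⟨y, h3 y hy', rfl⟩

end Pool.Agent.FJJ
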