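import Mathlib
import Pool.Agent.FJJ.ExtPow
import Pool.Agent.Lib_helper44.Wh.MatMon

/-!
# The integral logarithm over a ring of coefficients

`PRing p k`: `k` is a domain of characteristic zero in which `p` divides all `w ^ p - w`.
For such rings the difference of the external power and its Frobenius companion is a norm, and the
integral logarithm modulo `p ^ (m + 1)` of `Pool.Agent.Lib_helper44.Wh.Gamma` is defined on the unit
group of `k[𝔐]`, for every homomorphism from `k` to the integers modulo `p ^ (m + 1)`.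
-/

set_option autoImplicit false

namespace Pool.Agent.FJJ

open Finset Pool.Agent.WhK

section General

variable {k : Type*} [CommRing k] {𝔐 : Type*} [Monoid 𝔐] {N : ℕ} [NeZero N]

theorem exists_normK (F : MonoidAlgebra k (ZMod N → 𝔐)) (hinv : ∀ i, rhoK k i F = F)
    (hdiv : ∀ x, (stabCard x : k) ∣ F.coeff x) : ∃ z, ∑ i, rhoK k i z = F := by
  classical
  choose q hq using hdiv
  let s : Setoid (ZMod N → 𝔐) :=
    { r := fun x y => ∃ i, shiftHom i x = y
      iseqv :=
        { refl := fun x => ⟨0, shiftHom_zero x⟩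
          symm := by
            rintro x y ⟨i, rfl⟩
            exact ⟨-i, by rw [← shiftHom_add, neg_add_cancel, shiftHom_zero]⟩
          trans := by
            rintro x y z ⟨i, rfl⟩ ⟨j, rfl⟩
            exact ⟨j + i, shiftHom_add _ _ _⟩ } }
  let rep : (ZMod N → 𝔐) → (ZMod N → 𝔐) := fun x => Quotient.out (Quotient.mk s x)
  have hrep : ∀ x, ∃ i, shiftHom i (rep x) = x := fun x => Quotient.mk_out (s := s) x
  have hrep2 : ∀ i x, rep (shiftHom i x) = rep x := by
    intro i x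
    have : Quotient.mk s (shiftHom i x) = Quotient.mk s x :=
      Quotient.sound (s := s) ⟨-i, by rw [← shiftHom_add, neg_add_cancel, shiftHom_zero]⟩
    show Quotient.out _ = Quotient.out _
    rw [this]
  have hF : ∀ i x, F.coeff (shiftHom i x) = F.coeff x := by
    intro i x
    have := coeff_rhoK (-i) F x
    rw [hinv, neg_neg] at this
    exact this.symm
  let z : MonoidAlgebra k (ZMod N → 𝔐) := .ofCoeff (Finsupp.onFinset F.coeff.support
    (fun x => if F.coeff x = 0 then 0 else if rep x = x then q x else 0) (by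
      intro x hx
      rw [Finsupp.mem_support_iff]
      intro h0
      apply hx
      rw [if_pos h0]))
  have hz : ∀ x, z.coeff x = if F.coeff x = 0 then 0 else if rep x = x then q x else 0 :=
    fun x => rfl
  refine ⟨z, ?_⟩
  ext x
  rw [MonoidAlgebra.coeff_sum, Finsupp.finsetSum_apply]
  have hFrep : F.coeff (rep x) = F.coeff x := by
    obtain ⟨i, hi⟩ := hrep x
    conv_rhs => rw [← hi]
    exact (hF _ _).symm
  have h1 : ∀ i, (rhoK k i z).coeff x =
      if shiftHom (-i) x = rep x then (if F.coeff x = 0 then 0 else q (rep x)) else 0 := by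
    intro i
    rw [coeff_rhoK, hz, hrep2, hF]
    by_cases h : shiftHom (-i) x = rep x
    · rw [if_pos h, if_pos h.symm, h]
    · rw [if_neg h, if_neg (fun h' : rep x = shiftHom (-i) x => h h'.symm), ite_self]
  rw [Finset.sum_congr rfl fun i _ => h1 i, ← Finset.sum_filter, Finset.sum_const, nsmul_eq_mul]
  obtain ⟨i0, hi0⟩ := hrep x
  have h2 : (univ.filter fun i : ZMod N => shiftHom (-i) x = rep x).card = stabCard (rep x) := by
    unfold stabCard
    refine Finset.card_bij' (fun i _ => i0 - i) (fun i _ => i0 - i) ?_ ?_ ?_ ?_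
    · intro i hi
      simp only [Finset.mem_filter, Finset.mem_univ, true_and] at hi ⊢
      conv_rhs => rw [← hi]
      conv_rhs => rw [← hi0]
      rw [← shiftHom_add, neg_add_eq_sub]
    · intro i hi
      simp only [Finset.mem_filter, Finset.mem_univ, true_and] at hi ⊢
      conv_lhs => rw [← hi0]
      rw [← shiftHom_add]
      have e : -(i0 - i) + i0 = i := by ring
      rw [e, hi]
    · intro i _; ring
    · intro i _; ring
  rw [h2]
  by_cases h0 : F.coeff x = 0
  · rw [if_pos h0, mul_zero, h0]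
  · rw [if_neg h0, ← hq, hFrep]

end General

/-- `k` is a domain of characteristic zero in which `p` divides all `w ^ p - w` -/
class PRing (p : ℕ) (k : Type*) [CommRing k] : Prop where
  isDomain : IsDomain k
  charZero : CharZero k
  fermat : ∀ w : k, (p : k) ∣ w ^ p - w

instance (p : ℕ) [Fact p.Prime] : PRing p ℤ_[p] where
  isDomain := inferInstance
  charZero := inferInstance
  fermat w := by
    have h : w ^ p - w ∈ RingHom.ker (PadicInt.toZMod (p := p)) := by
      rw [RingHom.mem_ker, map_sub, map_pow, ZMod.pow_card, sub_self]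
    rw [PadicInt.ker_toZMod, PadicInt.maximalIdeal_eq_span_p, Ideal.mem_span_singleton] at h
    exact h

section Prime

variable {k : Type*} [CommRing k] {𝔐 : Type*} [Monoid 𝔐] (p m : ℕ) [Fact p.Prime]

/-- the Frobenius companion of the external power -/
noncomputable def WK (k : Type*) [CommRing k] {𝔐 : Type*} [Monoid 𝔐] (p m : ℕ) [Fact p.Prime] :
    MonoidAlgebra k 𝔐 →* MonoidAlgebra k (ZMod (p ^ (m + 1)) → 𝔐) :=
  (MonoidAlgebra.mapDomainRingHom k (diagHom p m)).toMonoidHom.comp (extKHom k (ZMod (p ^ m)) 𝔐)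

theorem WK_eq (u : MonoidAlgebra k 𝔐) :
    WK k p m u = MonoidAlgebra.mapDomain (diagHom p m) (extK (ZMod (p ^ m)) u) := rfl

theorem rhoK_WK (i : ZMod (p ^ (m + 1))) (u : MonoidAlgebra k 𝔐) :
    rhoK k i (WK k p m u) = WK k p m u := by
  rw [WK_eq, rhoK_eq, mdK_comp]
  have : (fun a : ZMod (p ^ m) → 𝔐 => shiftHom i (diagHom p m a)) =
      fun a => diagHom p m (shiftHom (ZMod.castHom (pdvd p m) (ZMod (p ^ m)) i) a) := by
    funext a j
    rw [shiftHom_apply, diagHom_apply, diagHom_apply, shiftHom_apply, map_add]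
  rw [this, ← mdK_comp (fun a => shiftHom (ZMod.castHom (pdvd p m) (ZMod (p ^ m)) i) a)
    (fun a => diagHom p m a)]
  congr 1
  exact rhoK_extK _ u

theorem exists_zK [PRing p k] (u : MonoidAlgebra k 𝔐) :
    ∃ z : MonoidAlgebra k (ZMod (p ^ (m + 1)) → 𝔐),
      ∑ i, rhoK k i z = extK (ZMod (p ^ (m + 1))) u - WK k p m u := by
  refine exists_normK _ (fun i => by rw [map_sub, rhoK_extK, rhoK_WK]) fun x => ?_
  obtain ⟨j, hj, hc, hper⟩ := stab_period p m x
  rw [hc]
  rcases Nat.eq_zero_or_pos j with rfl | hjpos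
  · simp
  -- the periodic sequence of coefficients
  set d := p ^ (m + 1 - j) with hd
  let f : ℕ → k := fun l => u.coeff (x (l : ZMod (p ^ (m + 1))))
  have hfx : ∀ l : ℕ, x ((l + d : ℕ) : ZMod (p ^ (m + 1))) = x (l : ZMod (p ^ (m + 1))) := by
    intro l
    rw [Nat.cast_add]
    exact congrFun hper (l : ZMod (p ^ (m + 1)))
  have hf : ∀ l, f (l + d) = f l := by
    intro l
    show u.coeff (x ((l + d : ℕ) : ZMod (p ^ (m + 1)))) = _
    rw [hfx]
  have hdm : d * p ^ (j - 1) = p ^ m := by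
    rw [hd, ← pow_add]
    congr 1
    omega
  have hdm1 : d * p ^ j = p ^ (m + 1) := by
    rw [hd, ← pow_add]
    congr 1
    omega
  set w : k := ∏ l ∈ Finset.range d, f l with hw
  have hU : (extK (ZMod (p ^ (m + 1))) u).coeff x = w ^ p ^ j := by
    rw [coeff_extK, prod_zmod_eq_range]
    have e : ∏ l ∈ Finset.range (p ^ (m + 1)), f l = ∏ l ∈ Finset.range (d * p ^ j), f l := by
      rw [hdm1]
    exact e.trans (prod_range_periodic f d hf _)
  have hxper : ∀ l c : ℕ, x ((l + d * c : ℕ) : ZMod (p ^ (m + 1))) = x (l : ZMod (p ^ (m + 1))) := by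
    intro l c
    induction c with
    | zero => simp
    | succ c ih => rw [mul_add, mul_one, ← add_assoc, hfx, ih]
  let y : ZMod (p ^ m) → 𝔐 := fun i => x ((i.val : ℕ) : ZMod (p ^ (m + 1)))
  have hy : ∀ l : ℕ, y (l : ZMod (p ^ m)) = x (l : ZMod (p ^ (m + 1))) := by
    intro l
    show x (((l : ZMod (p ^ m)).val : ℕ) : ZMod (p ^ (m + 1))) = _
    rw [ZMod.val_natCast]
    conv_rhs => rw [← Nat.mod_add_div l (p ^ m)]
    rw [← hdm, mul_assoc, hxper]
  have hxy : diagHom p m y = x := by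
    funext i
    rw [diagHom_apply]
    have : ZMod.castHom (pdvd p m) (ZMod (p ^ m)) i = ((i.val : ℕ) : ZMod (p ^ m)) := by
      rw [ZMod.castHom_apply, ZMod.natCast_val]
    rw [this, hy, ZMod.natCast_zmod_val]
  have hW : (WK k p m u).coeff x = w ^ p ^ (j - 1) := by
    rw [WK_eq, ← hxy, coeffK_inj (diagHom_injective p m), coeff_extK,
      prod_zmod_eq_range, ← prod_range_periodic f d hf, hdm]
    exact Finset.prod_congr rfl fun l _ => by rw [hy]
  rw [MonoidAlgebra.coeff_sub, Finsupp.sub_apply, hU, hW]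
  have := dvd_sub_pow_of_dvd_sub (PRing.fermat (p := p) w) (j - 1)
  rw [← pow_mul, ← pow_succ', Nat.sub_add_cancel hjpos] at this
  exact_mod_cast this

end Prime

section Gamma

variable {k : Type*} [CommRing k] {𝔐 : Type*} [Monoid 𝔐] {K : Type*} (cl : 𝔐 → K)
  (hcl : ∀ a b, cl (a * b) = cl (b * a))
  (p m : ℕ) [Fact p.Prime] [PRing p k] (r : k →+* ZMod (p ^ (m + 1)))

/-- the cyclic data over `k` -/
noncomputable def cycP : CycData (p ^ (m + 1)) (MonoidAlgebra k (ZMod (p ^ (m + 1)) → 𝔐))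
    (K →₀ ZMod (p ^ (m + 1))) :=
  haveI : IsDomain k := PRing.isDomain p
  haveI : CharZero k := PRing.charZero p
  cycK (p ^ (m + 1)) r cl hcl

/-- a chosen norm representative -/
noncomputable def zK (u : MonoidAlgebra k 𝔐) : MonoidAlgebra k (ZMod (p ^ (m + 1)) → 𝔐) :=
  (exists_zK p m u).choose

theorem zK_spec (u : MonoidAlgebra k 𝔐) :
    ∑ i, rhoK k i (zK p m u) = extK (ZMod (p ^ (m + 1))) u - WK k p m u :=
  (exists_zK p m u).choose_spec

theorem isTripK (u v : MonoidAlgebra k 𝔐) (huv : u * v = 1) (hvu : v * u = 1)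
    {z : MonoidAlgebra k (ZMod (p ^ (m + 1)) → 𝔐)}
    (hz : ∑ i, rhoK k i z = extK (ZMod (p ^ (m + 1))) u - WK k p m u) :
    (cycP cl hcl p m r).IsTrip (extK (ZMod (p ^ (m + 1))) u)
      (extK (ZMod (p ^ (m + 1))) v) (WK k p m u) (WK k p m v) z where
  U_inv i := rhoK_extK i u
  W_inv i := rhoK_WK p m i u
  Ui_inv i := rhoK_extK i v
  Wi_inv i := rhoK_WK p m i v
  h1 := by rw [← extK_mul, huv, extK_one]
  h2 := by rw [← extK_mul, hvu, extK_one]
  h3 := by rw [← map_mul, huv, map_one]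
  h4 := by rw [← map_mul, hvu, map_one]
  hz := hz

/-- the value of the integral logarithm -/
noncomputable def gamK (u : (MonoidAlgebra k 𝔐)ˣ) : K →₀ ZMod (p ^ (m + 1)) :=
  (cycP cl hcl p m r).gam (extK (ZMod (p ^ (m + 1))) (u⁻¹ : (MonoidAlgebra k 𝔐)ˣ).val)
    (WK k p m (u⁻¹ : (MonoidAlgebra k 𝔐)ˣ).val) (zK p m u.val)

variable {cl hcl p m r}

theorem gamK_eq (hp : p ≠ 2) (u : (MonoidAlgebra k 𝔐)ˣ)
    {z : MonoidAlgebra k (ZMod (p ^ (m + 1)) → 𝔐)}
    (hz : ∑ i, rhoK k i z = extK (ZMod (p ^ (m + 1))) u.val - WK k p m u.val) :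
    gamK cl hcl p m r u = (cycP cl hcl p m r).gam
      (extK (ZMod (p ^ (m + 1))) (u⁻¹ : (MonoidAlgebra k 𝔐)ˣ).val)
      (WK k p m (u⁻¹ : (MonoidAlgebra k 𝔐)ˣ).val) z := by
  have hodd : Odd (p ^ (m + 1)) := (Nat.Prime.odd_of_ne_two Fact.out hp).pow
  exact CycData.IsTrip.gam_indep hodd
    (isTripK cl hcl p m r u.val (u⁻¹ : (MonoidAlgebra k 𝔐)ˣ).val u.mul_inv u.inv_mul hz)
    (isTripK cl hcl p m r u.val (u⁻¹ : (MonoidAlgebra k 𝔐)ˣ).val u.mul_inv u.inv_mul
      (zK_spec p m u.val))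

theorem gamK_mul (hp : p ≠ 2) (u v : (MonoidAlgebra k 𝔐)ˣ) :
    gamK cl hcl p m r (u * v) = gamK cl hcl p m r u + gamK cl hcl p m r v := by
  have t1 := isTripK cl hcl p m r u.val (u⁻¹ : (MonoidAlgebra k 𝔐)ˣ).val u.mul_inv u.inv_mul
      (zK_spec p m u.val)
  have t2 := isTripK cl hcl p m r v.val (v⁻¹ : (MonoidAlgebra k 𝔐)ˣ).val v.mul_inv v.inv_mul
      (zK_spec p m v.val)
  have hz : ∑ i, rhoK k i (extK (ZMod (p ^ (m + 1))) u.val * zK p m v.val +
      zK p m u.val * WK k p m v.val) =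
      extK (ZMod (p ^ (m + 1))) (u * v).val - WK k p m (u * v).val := by
    have h : ∀ i, rhoK k i (extK (ZMod (p ^ (m + 1))) u.val * zK p m v.val +
        zK p m u.val * WK k p m v.val) = extK (ZMod (p ^ (m + 1))) u.val * rhoK k i (zK p m v.val) +
        rhoK k i (zK p m u.val) * WK k p m v.val := fun i => by
      rw [map_add, map_mul, map_mul, rhoK_extK, rhoK_WK]
    rw [Finset.sum_congr rfl fun i _ => h i, Finset.sum_add_distrib, ← Finset.mul_sum,
      ← Finset.sum_mul, zK_spec, zK_spec, Units.val_mul, extK_mul, map_mul, mul_sub, sub_mul]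
    abel
  rw [gamK_eq hp (u * v) hz]
  have h := t1.gam_mul t2
  rw [← extK_mul, ← map_mul, ← Units.val_mul, ← mul_inv_rev] at h
  exact h

variable (cl hcl p m r) in
/-- the integral logarithm -/
noncomputable def GamK (hp : p ≠ 2) :
    (MonoidAlgebra k 𝔐)ˣ →* Multiplicative (K →₀ ZMod (p ^ (m + 1))) :=
  MonoidHom.mk' (fun u => Multiplicative.ofAdd (gamK cl hcl p m r u)) fun u v => by
    rw [gamK_mul hp, ofAdd_add]

theorem GamK_apply (hp : p ≠ 2) (u : (MonoidAlgebra k 𝔐)ˣ) :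
    (GamK cl hcl p m r hp u).toAdd = gamK cl hcl p m r u := rfl

end Gamma

section Compare

variable (k : Type*) [CommRing k] {𝔐 : Type*} [Monoid 𝔐] {K : Type*} {cl : 𝔐 → K}
  {hcl : ∀ a b, cl (a * b) = cl (b * a)}
  {p m : ℕ} [Fact p.Prime] [PRing p k] {r : k →+* ZMod (p ^ (m + 1))}

/-- change of coefficients from the integers -/
noncomputable def ik (X : Type*) [Monoid X] : MonoidAlgebra ℤ X →+* MonoidAlgebra k X :=
  MonoidAlgebra.mapRingHom X (Int.castRingHom k)

theorem ik_extPow (N : ℕ) [NeZero N] (u : MonoidAlgebra ℤ 𝔐) :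
    extK (ZMod N) (ik k 𝔐 u) = ik k (ZMod N → 𝔐) (extPow (ZMod N) u) := extK_map _ _ u

theorem ik_Wof (p m : ℕ) [Fact p.Prime] (u : MonoidAlgebra ℤ 𝔐) :
    WK k p m (ik k 𝔐 u) = ik k _ (Wof p m u) := by
  rw [WK_eq, ik_extPow, Wof_eq]
  unfold ik
  rw [md_map]

theorem ik_rho {N : ℕ} (i : ZMod N) (x : MonoidAlgebra ℤ (ZMod N → 𝔐)) :
    rhoK k i (ik k _ x) = ik k _ (rho i x) := rhoK_map _ i x

/-- the integral logarithm over `k` extends the one over the integers -/
theorem gamK_int (hp : p ≠ 2) (u : (MonoidAlgebra ℤ 𝔐)ˣ) :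
    gamK cl hcl p m r (Units.map (ik k 𝔐).toMonoidHom u) = gamVal cl hcl p m u := by
  have hz : ∑ i, rhoK k i (ik k _ (zOf p m u.val)) = extK (ZMod (p ^ (m + 1)))
      (Units.map (ik k 𝔐).toMonoidHom u).val - WK k p m (Units.map (ik k 𝔐).toMonoidHom u).val := by
    show _ = extK (ZMod (p ^ (m + 1))) (ik k 𝔐 u.val) - WK k p m (ik k 𝔐 u.val)
    rw [ik_extPow, ik_Wof, ← map_sub, ← zOf_spec, map_sum]
    exact Finset.sum_congr rfl fun i _ => ik_rho k i _
  rw [gamK_eq hp _ hz]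
  have hinv : ((Units.map (ik k 𝔐).toMonoidHom u)⁻¹ : (MonoidAlgebra k 𝔐)ˣ).val =
      ik k 𝔐 (u⁻¹ : (MonoidAlgebra ℤ 𝔐)ˣ).val := rfl
  rw [hinv, ik_extPow, ik_Wof]
  have hT : ∀ x : MonoidAlgebra ℤ (ZMod (p ^ (m + 1)) → 𝔐),
      (cycP cl hcl p m r).T (ik k _ x) = (cycData (p ^ (m + 1)) cl hcl).T x := fun x =>
    TmK_int r cl x
  have hr : ∀ (j : ZMod (p ^ (m + 1))) (x : MonoidAlgebra ℤ (ZMod (p ^ (m + 1)) → 𝔐)),
      (cycP cl hcl p m r).ρ j (ik k _ x) = ik k _ ((cycData (p ^ (m + 1)) cl hcl).ρ j x) :=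
    fun j x => ik_rho k j x
  have hs : ∀ (a b x : MonoidAlgebra ℤ (ZMod (p ^ (m + 1)) → 𝔐)) (j : ZMod (p ^ (m + 1))),
      (1 - j) • (cycP cl hcl p m r).T (ik k _ (a * x) * ik k _ b *
        (cycP cl hcl p m r).ρ j (ik k _ x)) =
      (1 - j) • (cycData (p ^ (m + 1)) cl hcl).T (a * x * b *
        (cycData (p ^ (m + 1)) cl hcl).ρ j x) := by
    intro a b x j
    rw [hr, ← map_mul, ← map_mul, hT]
  unfold gamVal CycData.gam
  rw [← map_mul, hT, Finset.sum_congr rfl fun j _ => hs _ _ _ j]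

end Compare

end Pool.Agent.FJJ
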