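import Mathlib
import Pool.Agent.FJJ.Norm

/-!
# The integral logarithm of matrices over a group ring with coefficients in `k`
-/

set_option autoImplicit false

namespace Pool.Agent.FJJ

open Finset Pool.Agent.WhK

section Psi

variable {k : Type*} [CommRing k]

variable {G : Type*} [Group G] {n : ℕ}

/-- `x ↦ x • (E_ij - 0)` -/
noncomputable def psiK (i j : Fin n) : MonoidAlgebra k G →+ MonoidAlgebra k (MM G n) :=
  mdK (MM.unit i j) - mdK fun _ => MM.zero

theorem psiK_single (i j : Fin n) (g : G) (r : k) : psiK i j (MonoidAlgebra.single g r) =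
    MonoidAlgebra.single (MM.unit i j g) r - MonoidAlgebra.single MM.zero r := by
  simp [psiK, mdK_apply]

theorem psiK_mul (i j l l' : Fin n) (x y : MonoidAlgebra k G) :
    psiK i j x * psiK l l' y = if j = l then psiK i l' (x * y) else 0 := by
  induction x using MonoidAlgebra.induction_linear with
  | zero => simp
  | add x x' hx hx' =>
    rw [map_add, add_mul, hx, hx', add_mul, map_add]
    split_ifs <;> simp
  | single g r =>
    induction y using MonoidAlgebra.induction_linear with
    | zero => simp
    | add y y' hy hy' =>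
      rw [map_add, mul_add, hy, hy', mul_add, map_add]
      split_ifs <;> simp
    | single h s =>
      rw [psiK_single, psiK_single, MonoidAlgebra.single_mul_single, psiK_single, mul_sub, sub_mul,
        sub_mul, MonoidAlgebra.single_mul_single, MonoidAlgebra.single_mul_single,
        MonoidAlgebra.single_mul_single, MonoidAlgebra.single_mul_single, MM.mul_zero',
        MM.zero_mul', MM.zero_mul', MM.unit_mul]
      split_ifs
      · abel
      · abel

/-- matrices over the group ring in the monoid ring (non-unital ring homomorphism) -/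
noncomputable def PsiK : Matrix (Fin n) (Fin n) (MonoidAlgebra k G) →+ MonoidAlgebra k (MM G n) where
  toFun X := ∑ i, ∑ j, psiK i j (X i j)
  map_zero' := by simp
  map_add' X Y := by simp [Finset.sum_add_distrib]

theorem PsiK_apply (X : Matrix (Fin n) (Fin n) (MonoidAlgebra k G)) :
    PsiK X = ∑ i, ∑ j, psiK i j (X i j) := rfl

theorem PsiK_mul (X Y : Matrix (Fin n) (Fin n) (MonoidAlgebra k G)) :
    PsiK (X * Y) = PsiK X * PsiK Y := by
  rw [PsiK_apply, PsiK_apply, PsiK_apply, Finset.sum_mul]
  refine Finset.sum_congr rfl fun i _ => ?_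
  rw [Finset.sum_mul]
  have h1 : ∀ j, psiK i j (X i j) * ∑ a, ∑ l, psiK a l (Y a l) =
      ∑ l, psiK i l (X i j * Y j l) := by
    intro j
    rw [Finset.mul_sum]
    have h2 : ∀ a, psiK i j (X i j) * ∑ l, psiK a l (Y a l) =
        if j = a then ∑ l, psiK i l (X i j * Y a l) else 0 := by
      intro a
      rw [Finset.mul_sum]
      split_ifs with h
      · exact Finset.sum_congr rfl fun l _ => by rw [psiK_mul, if_pos h]
      · exact Finset.sum_eq_zero fun l _ => by rw [psiK_mul, if_neg h]
    rw [Finset.sum_congr rfl fun a _ => h2 a, Finset.sum_ite_eq, if_pos (Finset.mem_univ _)]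
  rw [Finset.sum_congr rfl fun j _ => h1 j, Finset.sum_comm]
  refine Finset.sum_congr rfl fun l _ => ?_
  rw [Matrix.mul_apply, map_sum]

/-- the multiplicative embedding of matrices -/
noncomputable def FK (k : Type*) [CommRing k] (G : Type*) [Group G] (n : ℕ) :
    Matrix (Fin n) (Fin n) (MonoidAlgebra k G) →* MonoidAlgebra k (MM G n) where
  toFun X := 1 + PsiK (X - 1)
  map_one' := by rw [sub_self, map_zero, add_zero]
  map_mul' X Y := by
    have : X * Y - 1 = (X - 1) + (Y - 1) + (X - 1) * (Y - 1) := by noncomm_ring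
    rw [this, map_add, map_add, PsiK_mul]
    noncomm_ring

theorem FK_apply (X : Matrix (Fin n) (Fin n) (MonoidAlgebra k G)) :
    FK k G n X = 1 + PsiK (X - 1) := rfl

theorem psiK_int (i j : Fin n) (x : MonoidAlgebra ℤ G) :
    psiK i j (ik k G x) = ik k (MM G n) (psi i j x) := by
  induction x using MonoidAlgebra.induction_linear with
  | zero => simp
  | add x x' hx hx' => rw [map_add, map_add, hx, hx', map_add, map_add]
  | single g r =>
    rw [psi_single, map_sub]
    unfold ik
    rw [MonoidAlgebra.mapRingHom_single, MonoidAlgebra.mapRingHom_single,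
      MonoidAlgebra.mapRingHom_single, psiK_single]

theorem FK_int (X : Matrix (Fin n) (Fin n) (MonoidAlgebra ℤ G)) :
    FK k G n (X.map (ik k G)) = ik k (MM G n) (Fhom G n X) := by
  rw [FK_apply, Fhom_apply, map_add, map_one, PsiK_apply, Psi_apply, map_sum]
  congr 1
  refine Finset.sum_congr rfl fun i _ => ?_
  rw [map_sum]
  refine Finset.sum_congr rfl fun j _ => ?_
  rw [← psiK_int]
  congr 1
  rw [Matrix.sub_apply, Matrix.sub_apply, map_sub, Matrix.map_apply, Matrix.one_apply,
    Matrix.one_apply]
  by_cases h : i = j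
  · rw [if_pos h, if_pos h, map_one]
  · rw [if_neg h, if_neg h, map_zero]

end Psi

section GLn

variable (k : Type*) [CommRing k] (G : Type*) [Group G] (n p m : ℕ) [Fact p.Prime] [PRing p k]
  (r : k →+* ZMod (p ^ (m + 1))) (hp : p ≠ 2)

/-- the integral logarithm of `GL_n(k[G])` -/
noncomputable def GamGLK : (Matrix (Fin n) (Fin n) (MonoidAlgebra k G))ˣ →*
    Multiplicative (Option (ConjClasses G) →₀ ZMod (p ^ (m + 1))) :=
  (GamK MM.cl MM.cl_comm p m r hp).comp (Units.map (FK k G n))

variable {G n p m hp}

/-- the integral logarithm over `k` extends the one over the integers -/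
theorem GamGLK_int (X : (Matrix (Fin n) (Fin n) (MonoidAlgebra ℤ G))ˣ)
    (Y : (Matrix (Fin n) (Fin n) (MonoidAlgebra k G))ˣ) (h : Y.val = X.val.map (ik k G)) :
    GamGLK k G n p m r hp Y = GamGL G n p m hp X := by
  have e : Units.map (FK k G n) Y = Units.map (ik k (MM G n)).toMonoidHom
      (Units.map (Fhom G n) X) := by
    ext1
    show FK k G n Y.val = ik k (MM G n) (Fhom G n X.val)
    rw [h, FK_int]
  show Multiplicative.ofAdd (gamK MM.cl MM.cl_comm p m r (Units.map (FK k G n) Y)) =
    Multiplicative.ofAdd (gamVal MM.cl MM.cl_comm p m (Units.map (Fhom G n) X))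
  rw [e, gamK_int k hp]

include r in
/-- the integral logarithm vanishes on products of commutators over `k[G]` -/
theorem GamGL_eq_one_of_comm (X : (Matrix (Fin n) (Fin n) (MonoidAlgebra ℤ G))ˣ)
    (Y : (Matrix (Fin n) (Fin n) (MonoidAlgebra k G))ˣ) (h : Y.val = X.val.map (ik k G))
    (hY : Y ∈ commutator (Matrix (Fin n) (Fin n) (MonoidAlgebra k G))ˣ) :
    GamGL G n p m hp X = 1 := by
  rw [← GamGLK_int k r X Y h]
  exact Abelianization.commutator_subset_ker (GamGLK k G n p m r hp) hY

end GLn

end Pool.Agent.FJJ
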