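import Pool.Agent.Lib_helper25.H2.Final2

/-!
# The universal classes are locally trivial

`LocT G` is the subgroup of those elements of `K₁(ℤ[G])` which vanish in `K₁(ℚ[G])` and in
`K₁(ℤ_p[G])` for all primes `p`.
-/

set_option autoImplicit false
set_option linter.unusedSectionVars false

open Matrix Pool.Agent.WhK Pool.Agent.Lib25 Pool.Agent.Lib25.H2

namespace Pool.Agent.FJJ

universe u v

section Loc

variable {G : Type u} [Group G]

theorem cls_surf {R : Type u} [Ring R] {ι : Type*} [Fintype ι] [DecidableEq ι]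
    (w : List ((Matrix ι ι R)ˣ × (Matrix ι ι R)ˣ)) : cls (surf w) = 0 := by
  induction w with
  | nil => rw [surf_nil, cls_one]
  | cons q w ih =>
    rw [surf_cons, cls_mul, cls_mul, cls_mul, cls_mul, cls_inv, cls_inv, ih]
    abel

variable (G) in
/-- the locally trivial elements of `K₁(ℤ[G])` -/
noncomputable def LocT : AddSubgroup (K1 (MonoidAlgebra ℤ G)) where
  carrier := {x | k1m (cg ℚ G) x = 0 ∧ ∀ (p : ℕ) [Fact p.Prime], k1m (cg ℤ_[p] G) x = 0}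
  add_mem' := by
    rintro a b ⟨ha1, ha2⟩ ⟨hb1, hb2⟩
    exact ⟨by rw [map_add, ha1, hb1, add_zero], fun p _ => by rw [map_add, ha2 p, hb2 p, add_zero]⟩
  zero_mem' := ⟨map_zero _, fun p _ => map_zero _⟩
  neg_mem' := by
    rintro a ⟨ha1, ha2⟩
    exact ⟨by rw [map_neg, ha1, neg_zero], fun p _ => by rw [map_neg, ha2 p, neg_zero]⟩

theorem mem_LocT {x : K1 (MonoidAlgebra ℤ G)} : x ∈ LocT G ↔
    k1m (cg ℚ G) x = 0 ∧ ∀ (p : ℕ) [Fact p.Prime], k1m (cg ℤ_[p] G) x = 0 := Iff.rfl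

theorem LocT_of_triv1 {x : K1 (MonoidAlgebra ℤ G)}
    {W : ∀ (p : ℕ) [Fact p.Prime], Pt2 G → ℚ_[p]} (h : Triv1 x W) : x ∈ LocT G := by
  obtain ⟨n, X, y, rfl, ⟨w, hw, -⟩, h3⟩ := h
  refine mem_LocT.2 ⟨?_, fun p _ => ?_⟩
  · rw [k1m_cls, ← hw, cls_surf]
  · obtain ⟨z, ⟨w', hw', -⟩, -⟩ := h3 p
    rw [k1m_cls, ← hw', cls_surf]

end Loc

/-- The universal classes, with the additional information that their images are locally
trivial. -/
theorem exists_kappa4 : ∃ κ : ∀ n : ℕ, ℕ → ∀ g : ℕ, K1 (MonoidAlgebra ℤ (CS n g)),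
    ∀ (G : Type v) [Group G],
      (∀ (n p g : ℕ) (φ : CS n g →* G), 0 < n → p.Prime → p ∣ n → k1g φ (κ n p g) ∈ LocT G) ∧
      (∀ (n p g g' g'' : ℕ) (φ : CS n g →* G) (φ' : CS n g' →* G) (φ'' : CS n g'' →* G),
        0 < n → p.Prime → p ∣ n →
        φ' (gH n g') = φ (gH n g) → φ'' (gH n g'') = φ (gH n g) →
        mapW φ'' (gW n g'') = mapW φ (gW n g) ++ mapW φ' (gW n g') →
        mt (k1g φ'' (κ n p g'')) = mt (k1g φ (κ n p g)) + mt (k1g φ' (κ n p g'))) ∧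
      (∀ (n p g : ℕ) (φ : CS n g →* G), 0 < n → p.Prime → p ∣ n →
        Null (φ (gH n g)) (mapW φ (gW n g)) → mt (k1g φ (κ n p g)) = 0) ∧
      ∀ L : ℕ → G → G → G → ℤ, IsAdm2 L → ∃ F : K1 (MonoidAlgebra ℤ G) →+ ℚ,
        ∀ (n p g : ℕ) (φ : CS n g →* G), 0 < n → p.Prime → p ∣ n →
          Function.Injective (fun c => φ (c, 1)) →
          F (k1g φ (κ n p g)) = ((evw (L p (φ (gH n g))) (mapW φ (gW n g)) : ℤ) : ℚ) := by
  classical
  have h0 : ∀ n : ℕ, ∃ (N : ℕ) (κ : ℕ → ∀ g : ℕ, K1 (MonoidAlgebra ℤ (CS n g))), ∀ hn : 0 < n,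
      haveI : NeZero n := ⟨hn.ne'⟩
      0 < N ∧ ∀ (p : ℕ) [Fact p.Prime], p ∣ n → ∃ t : (ZMod n)ˣ → ℚ_[p],
      (∀ (Y : (ZMod n)ˣ → ℚ) (y : ℚ), ∑ u, t u * (Y u : ℚ_[p]) = (y : ℚ_[p]) →
        ∀ z, (N : ℚ) * ∑ u ∈ Finset.univ.filter (fun u => uRel n p u z), Y u =
          y * (Finset.univ.filter (fun u => uRel n p u z)).card) ∧
      ∀ {G : Type v} [Group G],
        (∀ (g : ℕ) (φ : CS n g →* G), ∃ W : ∀ (q : ℕ) [Fact q.Prime], Pt2 G → ℚ_[q],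
          Triv1 (k1g φ (κ p g)) W ∧
          (∀ x, W p x = ∑ u : (ZMod n)ˣ, t u * ((mu2 x.1.1 x.1.2 (mapW φ (gW n g))
            (φ (gH n g) ^ (u : ZMod n).val) : ℤ) : ℚ_[p])) ∧
          ∀ (q : ℕ) [Fact q.Prime], q ≠ p → ∀ x, W q x = 0) ∧
        (∀ (g g' g'' : ℕ) (φ : CS n g →* G) (φ' : CS n g' →* G) (φ'' : CS n g'' →* G),
          φ' (gH n g') = φ (gH n g) → φ'' (gH n g'') = φ (gH n g) →
          mapW φ'' (gW n g'') = mapW φ (gW n g) ++ mapW φ' (gW n g') →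
          mt (k1g φ'' (κ p g'')) = mt (k1g φ (κ p g)) + mt (k1g φ' (κ p g'))) ∧
        ∀ (g : ℕ) (φ : CS n g →* G), Null (φ (gH n g)) (mapW φ (gW n g)) →
          mt (k1g φ (κ p g)) = 0 := by
    intro n
    by_cases hn : 0 < n
    · have : NeZero n := ⟨hn.ne'⟩
      obtain ⟨N, κ, hN, hκ⟩ := exists_kappa2.{v} n
      refine ⟨N, κ, fun _ => ⟨hN, fun p _ hpn => ?_⟩⟩
      exact hκ p hpn
    · exact ⟨0, fun _ _ => 0, fun h => absurd h hn⟩
  choose N κ hκ using h0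
  refine ⟨κ, fun G _ => ⟨?_, ?_, ?_, ?_⟩⟩
  · intro n p g φ hn hp hpn
    have : NeZero n := ⟨hn.ne'⟩
    have : Fact p.Prime := ⟨hp⟩
    obtain ⟨t, -, ht⟩ := (hκ n hn).2 p hpn
    obtain ⟨W, hW, -⟩ := (ht (G := G)).1 g φ
    exact LocT_of_triv1 hW
  · intro n p g g' g'' φ φ' φ'' hn hp hpn h1 h2 h3
    have : NeZero n := ⟨hn.ne'⟩
    have : Fact p.Prime := ⟨hp⟩
    obtain ⟨t, -, ht⟩ := (hκ n hn).2 p hpn
    exact (ht (G := G)).2.1 g g' g'' φ φ' φ'' h1 h2 h3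
  · intro n p g φ hn hp hpn h1
    have : NeZero n := ⟨hn.ne'⟩
    have : Fact p.Prime := ⟨hp⟩
    obtain ⟨t, -, ht⟩ := (hκ n hn).2 p hpn
    exact (ht (G := G)).2.2 g φ h1
  · intro L hL
    have hrel := relation2 (G := G) N κ (fun n hn => (hκ n hn).1) (by
      intro n hn p hp hpn
      obtain ⟨t, ht1, ht2⟩ := (hκ n (Nat.pos_of_ne_zero hn.ne)).2 p hpn
      refine ⟨t, fun Y y hy z => ht1 Y y hy z, fun g φ => (ht2 (G := G)).1 g φ⟩) L hL
    obtain ⟨F, hF⟩ := exists_functional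
      (fun j : Idx2 G => k1g j.φ (κ j.n j.p j.g))
      (fun j => ((evw (L j.p j.h) j.w : ℤ) : ℚ)) hrel
    exact ⟨F, fun n p g φ hn hp hpn hφ => hF ⟨n, g, p, φ, hn, hp, hpn, hφ⟩⟩

section Kap

variable {n : ℕ} [NeZero n] {G : Type v} [Group G]
  (κ : ℕ → ∀ g : ℕ, K1 (MonoidAlgebra ℤ (CS n g)))

/-- the averaged classes are locally trivial -/
theorem LocT_kapT
    (h : ∀ (q g : ℕ) (φ : CS n g →* G), q.Prime → q ∣ n → k1g φ (κ q g) ∈ LocT G)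
    {p g : ℕ} (hp : p ∈ n.primeFactors) (φ : CS n g →* G) : k1g φ (kapT κ p g) ∈ LocT G := by
  have h1 := ak3_induct (T := twS g) (κ := fun q => κ q g) (fun u w x => twS_twS g u w x)
    ((QuotientAddGroup.mk' (LocT G)).comp (k1g φ)) (fun q hq w => ?_) p hp
  · exact (QuotientAddGroup.eq_zero_iff _).1 h1
  · refine (QuotientAddGroup.eq_zero_iff _).2 ?_
    rw [k1g_twS]
    exact h q g _ (Nat.prime_of_mem_primeFactors hq) (Nat.dvd_of_mem_primeFactors hq)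

end Kap

end Pool.Agent.FJJ
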