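import Pool.Agent.FJJ.Src
import Pool.Agent.FJJ.Defs
import Pool.Agent.FJJ.Mat
import Pool.Agent.Lib_helper44.Wh.Final

/-!
# Locally trivial elements and the other parts of the source
-/

set_option autoImplicit false

open Matrix Pool.Agent.WhK Pool.Agent.Lib25 Pool.Agent.Lib25.H2

namespace Pool.Agent.FJJ

universe u v

section Det

theorem stabMat_scalar (R : Type u) [Ring R] (k : ℕ) (r : R) :
    stabMat R 1 (k + 1) (Matrix.scalar (Fin 1) r) =
      Matrix.diagonal (Function.update 1 (0 : Fin (k + 1)) r) := by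
  ext1 i j
  rw [stabMat, Matrix.of_apply, Matrix.diagonal_apply]
  by_cases h : i.val < 1 ∧ j.val < 1
  · have hi : i = 0 := Fin.ext (Nat.lt_one_iff.1 h.1)
    have hj : j = 0 := Fin.ext (Nat.lt_one_iff.1 h.2)
    subst hi
    subst hj
    rw [dif_pos h, if_pos rfl, Function.update_self, Matrix.scalar_apply, Matrix.diagonal_apply,
      if_pos rfl]
  · rw [dif_neg h]
    by_cases hij : i = j
    · subst hij
      have hi : i ≠ 0 := by
        rintro rfl
        exact h ⟨Nat.zero_lt_one, Nat.zero_lt_one⟩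
      rw [if_pos rfl, if_pos rfl, Function.update_of_ne hi, Pi.one_apply]
    · rw [if_neg hij, if_neg hij]

/-- a unit of a commutative ring with trivial class in `K₁` is trivial -/
theorem unit_eq_one {S : Type u} [CommRing S] (u : Sˣ) (h : K1.ofUnit u = 0) : u = 1 := by
  obtain ⟨k, hk, hk0, hc⟩ := exists_stab_mem_commutator h
  obtain ⟨k, rfl⟩ : ∃ k', k = k' + 1 := ⟨k - 1, by omega⟩
  let δ : (Matrix (Fin (k + 1)) (Fin (k + 1)) S)ˣ →* Sˣ := Units.map Matrix.detMonoidHom
  have h1 : δ (stabGL S 1 (k + 1) hk (Units.map (Matrix.scalar (Fin 1)).toMonoidHom u)) = 1 :=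
    Abelianization.commutator_subset_ker δ hc
  refine Units.ext ?_
  have h2 := congrArg Units.val h1
  change Matrix.det (stabMat S 1 (k + 1) (Matrix.scalar (Fin 1) (u : S))) = 1 at h2
  rw [stabMat_scalar, Matrix.det_diagonal, Fin.prod_univ_succ, Function.update_self] at h2
  rw [Finset.prod_eq_one, mul_one] at h2
  · exact h2
  · intro i _
    rw [Function.update_of_ne (Fin.succ_ne_zero i), Pi.one_apply]

end Det

section Log

variable {G : Type u} [Group G]

/-- if the class of the unit `v` is locally trivial then its integral logarithm vanishes -/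
theorem GamGL_of_locT (v : (MonoidAlgebra ℤ G)ˣ) (h : K1.ofUnit v ∈ LocT G) (p : ℕ)
    [Fact p.Prime] (hp : p ≠ 2) :
    ∃ k : ℕ, ∀ m : ℕ, GamGL G (k + 1) p m hp
      (Units.map (Pool.Agent.WhK.dg (0 : Fin (k + 1))) v) = 1 := by
  have h1 : k1m (cg ℤ_[p] G) (K1.ofUnit v) = 0 := (mem_LocT.1 h).2 p
  unfold K1.ofUnit at h1
  rw [k1m_mk] at h1
  obtain ⟨k, hk, hk0, hc⟩ := exists_stab_mem_commutator h1
  obtain ⟨k, rfl⟩ : ∃ k', k = k' + 1 := ⟨k - 1, by omega⟩
  refine ⟨k, fun m => ?_⟩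
  refine GamGL_eq_one_of_comm ℤ_[p] (PadicInt.toZModPow (m + 1)) _ _ ?_ hc
  change stabMat (MonoidAlgebra ℤ_[p] G) 1 (k + 1)
    ((Matrix.scalar (Fin 1) (v : MonoidAlgebra ℤ G)).map (cg ℤ_[p] G)) = _
  rw [stabMat_glMap, stabMat_scalar]
  rfl

theorem gUnit_log (g : G) (k p m : ℕ) [Fact p.Prime] (hp : p ≠ 2) (κ : ConjClasses G) :
    (GamGL G (k + 1) p m hp
      (Units.map (Pool.Agent.WhK.dg (0 : Fin (k + 1))) (gUnit g))).toAdd (some κ) = 0 := by
  have h := mem_Wtriv_of_zpowers g true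
  rw [if_pos rfl] at h
  exact h k p m hp κ

end Log

section Colim

variable {G : Type u} [Group G]

theorem ColimF.mk_add (H : FinSub G) (x y : K1Z H.sub) :
    ColimF.mk H (x + y) = ColimF.mk H x + ColimF.mk H y := by
  have h : (QuotientAddGroup.mk (ColimF.relAddElt H x y) : ColimF G) = 0 :=
    (QuotientAddGroup.eq_zero_iff _).2 (AddSubgroup.subset_closure (Or.inl ⟨H, x, y, rfl⟩))
  exact sub_eq_zero.1 ((sub_sub _ _ _).symm.trans h)

theorem ColimF.mk_conj (H K : FinSub G) (g : G) (h : ∀ c ∈ H.sub, g * c * g⁻¹ ∈ K.sub)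
    (x : K1Z H.sub) : ColimF.mk H x = ColimF.mk K (K1Z.map (conjHom H.sub K.sub g h) x) := by
  have h : (QuotientAddGroup.mk (ColimF.relConjElt H K g h x) : ColimF G) = 0 :=
    (QuotientAddGroup.eq_zero_iff _).2 (AddSubgroup.subset_closure (Or.inr ⟨H, K, g, h, x, rfl⟩))
  exact sub_eq_zero.1 h

/-- `ColimF.mk` as a homomorphism -/
noncomputable def ColimF.mkHom (H : FinSub G) : K1Z H.sub →+ ColimF G :=
  AddMonoidHom.mk' (ColimF.mk H) (ColimF.mk_add H)

/-- the image in `K₁(ℤ[G])` of a pair -/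
noncomputable def KPair.img (q : KPair G) : K1Z G := K1Z.map q.H.sub.subtype q.x

theorem KPair.img_rel : AddSubgroup.closure (ColimF.relAdd G ∪ ColimF.relConj G) ≤
    (FreeAbelianGroup.lift (KPair.img (G := G))).ker := by
  rw [AddSubgroup.closure_le]
  rintro z (⟨H, x, y, rfl⟩ | ⟨H, K, g, h, x, rfl⟩)
  · rw [SetLike.mem_coe, AddMonoidHom.mem_ker, ColimF.relAddElt, map_sub, map_sub, ColimF.gen,
      ColimF.gen, ColimF.gen, FreeAbelianGroup.lift_apply_of, FreeAbelianGroup.lift_apply_of,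
      FreeAbelianGroup.lift_apply_of, sub_sub, sub_eq_zero]
    exact map_add (K1Z.map H.sub.subtype) x y
  · rw [SetLike.mem_coe, AddMonoidHom.mem_ker, ColimF.relConjElt, map_sub, ColimF.gen,
      ColimF.gen, FreeAbelianGroup.lift_apply_of, FreeAbelianGroup.lift_apply_of, sub_eq_zero]
    change k1g H.sub.subtype x = k1g K.sub.subtype (k1g (conjHom H.sub K.sub g h) x)
    rw [k1g_comp, ← k1g_conj g (k1g H.sub.subtype x), k1g_comp]
    rfl

variable (G) in
/-- the natural homomorphism `colim_H K₁(ℤ[H]) → K₁(ℤ[G])` -/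
noncomputable def asmF : ColimF G →+ K1Z G :=
  QuotientAddGroup.lift _ (FreeAbelianGroup.lift KPair.img) KPair.img_rel

theorem asmF_mk (H : FinSub G) (x : K1Z H.sub) :
    asmF G (ColimF.mk H x) = K1Z.map H.sub.subtype x := by
  show QuotientAddGroup.lift _ _ _ (QuotientAddGroup.mk _) = _
  rw [QuotientAddGroup.lift_mk]
  exact FreeAbelianGroup.lift_apply_of _ _

/-- the class in `ColimF G` of a unit of `ℤ[C]` -/
noncomputable def uCls (C : Cyc G) (u : (MonoidAlgebra ℤ C.sub)ˣ) : ColimF G :=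
  ColimF.mk C.toFin (K1.ofUnit u)

theorem uCls_mul (C : Cyc G) (u v : (MonoidAlgebra ℤ C.sub)ˣ) :
    uCls C (u * v) = uCls C u + uCls C v := by
  unfold uCls
  rw [K1.ofUnit_mul]
  exact ColimF.mk_add _ _ _

theorem k1g_ofUnit {A B : Type u} [Group A] [Group B] (f : A →* B) (u : (MonoidAlgebra ℤ A)ˣ) :
    k1g f (K1.ofUnit u) = K1.ofUnit (unitsMap f u) := by
  unfold k1g K1.ofUnit
  rw [k1m_mk]
  congr 1
  refine Units.ext (Matrix.ext fun i j => ?_)
  change rm ℤ f (Matrix.scalar (Fin 1) (u : MonoidAlgebra ℤ A) i j) =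
    Matrix.scalar (Fin 1) (rm ℤ f (u : MonoidAlgebra ℤ A)) i j
  rw [Matrix.scalar_apply, Matrix.scalar_apply, Matrix.diagonal_apply, Matrix.diagonal_apply]
  split_ifs
  · rfl
  · exact map_zero _

theorem uCls_conj (C D : Cyc G) (g : G) (h : ∀ c ∈ C.sub, g * c * g⁻¹ ∈ D.sub)
    (u : (MonoidAlgebra ℤ C.sub)ˣ) :
    uCls C u = uCls D (unitsMap (conjHom C.sub D.sub g h) u) :=
  (ColimF.mk_conj C.toFin D.toFin g h _).trans (congrArg (ColimF.mk D.toFin) (k1g_ofUnit _ u))

/-- the class in `ColimF G` of a pair `(C, u)` -/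
noncomputable def tPair (q : Pairs G) : ColimF G := uCls q.C q.u

theorem tPair_rel : AddSubgroup.closure (relMul G ∪ relConj G) ≤
    (FreeAbelianGroup.lift (tPair (G := G))).ker := by
  rw [AddSubgroup.closure_le]
  rintro x (⟨C, u, v, rfl⟩ | ⟨C, D, g, h, u, rfl⟩)
  · rw [SetLike.mem_coe, AddMonoidHom.mem_ker, relMulElt, map_sub, map_sub, gen, gen, gen,
      FreeAbelianGroup.lift_apply_of, FreeAbelianGroup.lift_apply_of,
      FreeAbelianGroup.lift_apply_of, sub_sub, sub_eq_zero]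
    exact uCls_mul C u v
  · rw [SetLike.mem_coe, AddMonoidHom.mem_ker, relConjElt, map_sub, gen, gen,
      FreeAbelianGroup.lift_apply_of, FreeAbelianGroup.lift_apply_of, sub_eq_zero]
    exact uCls_conj C D g h u

variable (G) in
/-- the natural homomorphism from the colimit over the finite cyclic subgroups -/
noncomputable def thF : ColimK1 G →+ ColimF G :=
  QuotientAddGroup.lift _ (FreeAbelianGroup.lift tPair) tPair_rel

theorem thF_mk (C : Cyc G) (u : (MonoidAlgebra ℤ C.sub)ˣ) :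
    thF G (ColimK1.mk C u) = uCls C u := by
  show QuotientAddGroup.lift _ _ _ (QuotientAddGroup.mk _) = _
  rw [QuotientAddGroup.lift_mk]
  exact FreeAbelianGroup.lift_apply_of _ _

theorem asmF_thF (d : ColimK1 G) :
    asmF G (thF G d) = liftColim (K1.unitHom (MonoidAlgebra ℤ G)) d := by
  have h : ((asmF G).comp (thF G)).comp (QuotientAddGroup.mk' _) =
      (liftColim (K1.unitHom (MonoidAlgebra ℤ G))).comp (QuotientAddGroup.mk' _) := by
    ext y
    change asmF G (thF G (ColimK1.mk y.C y.u)) =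
      liftColim (K1.unitHom (MonoidAlgebra ℤ G)) (ColimK1.mk y.C y.u)
    rw [thF_mk, liftColim_mk]
    exact (asmF_mk y.C.toFin _).trans (k1g_ofUnit _ _)
  obtain ⟨z, rfl⟩ := QuotientAddGroup.mk'_surjective _ d
  exact DFunLike.congr_fun h z

theorem mk_unit_mem (H : FinSub G) (C : Subgroup H.sub) (hC : IsCyclic C)
    (u : (MonoidAlgebra ℤ C)ˣ) :
    ColimF.mk H (K1.ofUnit (Units.map (zmap C.subtype).toMonoidHom u)) ∈ (thF G).range := by
  have := H.fin
  let e : C ≃* C.map H.sub.subtype := C.equivMapOfInjective H.sub.subtype H.sub.subtype_injective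
  have : Finite (C.map H.sub.subtype) := Finite.of_equiv _ e.toEquiv
  have : IsCyclic (C.map H.sub.subtype) := isCyclic_of_surjective e.toMonoidHom e.surjective
  let D' : Cyc G := ⟨C.map H.sub.subtype, inferInstance, inferInstance⟩
  have hle : ∀ c ∈ D'.toFin.sub, (1 : G) * c * 1⁻¹ ∈ H.sub := by
    rintro c ⟨d, -, rfl⟩
    simp
  refine ⟨ColimK1.mk D' (unitsMap e.toMonoidHom u), ?_⟩
  rw [thF_mk]
  have h0 : uCls D' (unitsMap e.toMonoidHom u) =
      ColimF.mk D'.toFin (k1g e.toMonoidHom (K1.ofUnit u)) :=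
    congrArg (ColimF.mk D'.toFin) (k1g_ofUnit e.toMonoidHom u).symm
  rw [h0, ColimF.mk_conj D'.toFin H 1 hle]
  congr 1
  have h2 : (conjHom D'.toFin.sub H.sub 1 hle).comp e.toMonoidHom = C.subtype := by
    ext d
    show (1 : G) * (e d : G) * 1⁻¹ = ((d : H.sub) : G)
    rw [one_mul, inv_one, mul_one]
    rfl
  refine (k1g_comp (conjHom D'.toFin.sub H.sub 1 hle) e.toMonoidHom _).trans ?_
  rw [h2]
  exact k1g_ofUnit C.subtype u

theorem mem_sat_aux (H : FinSub G) (k : K1 (MonoidAlgebra ℤ H.sub)) :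
    ColimF.mk H k ∈ sat (thF G).range := by
  have := H.fin
  let := Fintype.ofFinite H.sub
  obtain ⟨N, hN, hk⟩ := artin_K1 (H := H.sub) k
  refine ⟨N, hN, ?_⟩
  let F : K1 (MonoidAlgebra ℤ H.sub) →+ ColimF G := ColimF.mkHom H
  have h1 : cycUnits H.sub ≤ (thF G).range.comap F := by
    unfold cycUnits
    rw [AddSubgroup.closure_le]
    rintro y ⟨C, hC, u, rfl⟩
    exact mk_unit_mem H C hC u
  have h2 : F (N • k) ∈ (thF G).range := h1 hk
  rw [map_nsmul] at h2
  exact h2

theorem mem_sat_thF (x : ColimF G) : x ∈ sat (thF G).range := by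
  induction x using QuotientAddGroup.induction_on with
  | H z =>
    induction z using FreeAbelianGroup.induction_on with
    | zero => exact AddSubgroup.zero_mem _
    | of x => exact mem_sat_aux x.H x.x
    | neg x hx => exact AddSubgroup.neg_mem _ hx
    | add x y hx hy => exact AddSubgroup.add_mem _ hx hy

end Colim

end Pool.Agent.FJJ
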